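import Mathlib
import Pool.Agent.Work.MP_a2bf38_gt.Fu.X.LocComp
import Pool.Agent.Work.MP_a2bf38_gt.Fu.Ext.MP_0e9e72_an.SCVA

section

/-!
# Multivalued holomorphic maps
-/

open Metric Set Filter Topology

namespace Pool.Agent.KRFLj

/-- `g z i`, `i < D`, is a `D`-valued holomorphic map from the ball of radius `δ` of `E` to the ball
of radius `R` of `V`: the sums `∑ h (g z i)` are holomorphic in `z` for all holomorphic functions
`h` on the ball of radius `2 R`. -/
structure Sheet {E V : Type} [NormedAddCommGroup E] [NormedSpace ℂ E] [NormedAddCommGroup V]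
    [NormedSpace ℂ V] (R δ : ℝ) {D : ℕ} (g : E → Fin D → V) : Prop where
  mem : ∀ z ∈ ball (0 : E) δ, ∀ i, ‖g z i‖ ≤ R
  trace : ∀ h : V → ℂ, DifferentiableOn ℂ h (ball 0 (2 * R)) →
    DifferentiableOn ℂ (fun z => ∑ i, h (g z i)) (ball 0 δ)

end Pool.Agent.KRFLj

end

section

/-!
# Newton's identities for multivalued holomorphic maps
-/

open Metric Set Filter Topology

namespace Pool.Agent.KRFLj

variable {E V : Type} [NormedAddCommGroup E] [NormedSpace ℂ E] [NormedAddCommGroup V]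
  [NormedSpace ℂ V]

variable {R δ : ℝ} {D : ℕ} {g : E → Fin D → V}

lemma aeval_esymm' {σ : Type} [Fintype σ] (k : ℕ) (x : σ → ℂ) :
    MvPolynomial.aeval x (MvPolynomial.esymm σ ℂ k) =
      ∑ s ∈ Finset.powersetCard k Finset.univ, ∏ i ∈ s, x i := by
  rw [MvPolynomial.esymm, map_sum]
  refine Finset.sum_congr rfl fun s _ => ?_
  rw [map_prod]
  simp

lemma aeval_psum' {σ : Type} [Fintype σ] (k : ℕ) (x : σ → ℂ) :
    MvPolynomial.aeval x (MvPolynomial.psum σ ℂ k) = ∑ i, x i ^ k := by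
  rw [MvPolynomial.psum, map_sum]
  refine Finset.sum_congr rfl fun s _ => ?_
  simp

/-- Newton's identities -/
theorem Sheet.esymm (hg : Sheet R δ g) {h : V → ℂ} (hh : DifferentiableOn ℂ h (ball 0 (2 * R)))
    (k : ℕ) : DifferentiableOn ℂ
      (fun z => ∑ s ∈ Finset.powersetCard k Finset.univ, ∏ i ∈ s, h (g z i)) (ball 0 δ) := by
  have key : ∀ k : ℕ, DifferentiableOn ℂ
      (fun z => MvPolynomial.aeval (fun i => h (g z i)) (MvPolynomial.esymm (Fin D) ℂ k))
      (ball 0 δ) := by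
    intro k
    induction k using Nat.strong_induction_on with
    | _ k ih =>
      rcases Nat.eq_zero_or_pos k with rfl | hk
      · simp only [MvPolynomial.esymm_zero, map_one]
        exact differentiableOn_const _
      · have hid : ∀ z, MvPolynomial.aeval (fun i => h (g z i)) (MvPolynomial.esymm (Fin D) ℂ k) =
            (k : ℂ)⁻¹ * ((-1) ^ (k + 1) *
              ∑ a ∈ Finset.HasAntidiagonal.antidiagonal k with a.1 < k, (-1) ^ a.1 *
                MvPolynomial.aeval (fun i => h (g z i)) (MvPolynomial.esymm (Fin D) ℂ a.1) *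
                ∑ i, h (g z i) ^ a.2) := by
          intro z
          have h1 := congrArg (MvPolynomial.aeval (fun i => h (g z i)))
            (MvPolynomial.mul_esymm_eq_sum (Fin D) ℂ k)
          simp only [map_mul, map_natCast, map_sum, map_pow, map_neg, map_one, aeval_psum'] at h1
          rw [← h1, ← mul_assoc, inv_mul_cancel₀ (by exact_mod_cast hk.ne'), one_mul]
        have e : (fun z => MvPolynomial.aeval (fun i => h (g z i))
            (MvPolynomial.esymm (Fin D) ℂ k)) = fun z =>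
            (k : ℂ)⁻¹ * ((-1) ^ (k + 1) *
              ∑ a ∈ Finset.HasAntidiagonal.antidiagonal k with a.1 < k, (-1) ^ a.1 *
                MvPolynomial.aeval (fun i => h (g z i)) (MvPolynomial.esymm (Fin D) ℂ a.1) *
                ∑ i, h (g z i) ^ a.2) := funext hid
        rw [e]
        refine DifferentiableOn.const_mul (DifferentiableOn.const_mul ?_ _) _
        refine DifferentiableOn.fun_sum fun a ha => ?_
        have ha' := (Finset.mem_filter.1 ha).2
        exact ((ih a.1 ha').const_mul _).mul (hg.trace (fun v => h v ^ a.2) (hh.pow a.2))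
  have := key k
  simpa only [aeval_esymm'] using this

end Pool.Agent.KRFLj

end

section

/-!
# The Łojasiewicz inequality on a compact manifold, from the local inequality
-/

open scoped ContDiff
open Metric Set Filter Topology Pool.Agent.ToricKRF Pool.Agent.ToricKRF.G Pool.Agent.KRFS
  Pool.Agent.KRFF

namespace Pool.Agent.KRFLj

/-! ### Complex coordinates -/

section Coord

variable {n : ℕ}

/-- `ℂ^n` as a real space of pairs -/
noncomputable def iot (n : ℕ) : (Fin n → ℂ) →L[ℝ] Cn n :=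
  (ContinuousLinearMap.pi fun k => Complex.reCLM.comp (ContinuousLinearMap.proj k)).prod
    (ContinuousLinearMap.pi fun k => Complex.imCLM.comp (ContinuousLinearMap.proj k))

/-- the complex coordinates -/
noncomputable def ccv (z : Cn n) : Fin n → ℂ := fun k => cc z k

theorem iot_ccv (z : Cn n) : iot n (ccv z) = z := by
  ext k <;> simp [iot, ccv, cc]

theorem ccv_iot (w : Fin n → ℂ) : ccv (iot n w) = w := by
  funext k
  apply Complex.ext <;> simp [iot, ccv, cc]

theorem iot_I (w : Fin n → ℂ) : iot n (Complex.I • w) = J (iot n w) := by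
  ext k <;> simp [iot, J]

theorem ccv_sub (z w : Cn n) : ccv (z - w) = ccv z - ccv w := by
  funext k
  apply Complex.ext <;> simp [ccv, cc]

theorem norm_iot_le (w : Fin n → ℂ) : ‖iot n w‖ ≤ ‖w‖ := by
  refine max_le ?_ ?_
  · refine (pi_norm_le_iff_of_nonneg (norm_nonneg _)).2 fun k => ?_
    exact (Complex.abs_re_le_norm (w k)).trans (norm_le_pi_norm w k)
  · refine (pi_norm_le_iff_of_nonneg (norm_nonneg _)).2 fun k => ?_
    exact (Complex.abs_im_le_norm (w k)).trans (norm_le_pi_norm w k)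

theorem norm_ccv_le (z : Cn n) : ‖ccv z‖ ≤ 2 * ‖z‖ := by
  refine (pi_norm_le_iff_of_nonneg (by positivity)).2 fun k => ?_
  have h1 : |(z.1 k)| ≤ ‖z‖ := (norm_le_pi_norm z.1 k).trans (norm_fst_le z)
  have h2 : |(z.2 k)| ≤ ‖z‖ := (norm_le_pi_norm z.2 k).trans (norm_snd_le z)
  have h3 := Complex.norm_le_abs_re_add_abs_im (cc z k)
  have h4 : |(cc z k).re| + |(cc z k).im| = |z.1 k| + |z.2 k| := rfl
  change ‖cc z k‖ ≤ _
  linarith

theorem norm_ccv_sub_le (z w : Cn n) : ‖ccv z - ccv w‖ ≤ 2 * dist z w := by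
  rw [← ccv_sub, dist_eq_norm]
  exact norm_ccv_le _

end Coord

/-- a function which is holomorphic in the sense of `HolC` is differentiable over `ℂ` -/
theorem differentiableAt_of_holC {n : ℕ} {V : Type*} [NormedAddCommGroup V] [NormedSpace ℂ V]
    {h : Cn n → ℂ} {S : Set (Cn n)} (hS : IsOpen S) (hh : NF.HolC h S) (z₀ : Cn n)
    (p : V →L[ℂ] (Fin n → ℂ)) {w : V} (hw : z₀ + iot n (p w) ∈ S) :
    DifferentiableAt ℂ (fun w => h (z₀ + iot n (p w))) w := by
  have h1 : HasFDerivAt h (fderiv ℝ h (z₀ + iot n (p w))) (z₀ + iot n (p w)) :=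
    (NF.diffAt hS hh.1 hw).hasFDerivAt
  have h2 : HasFDerivAt (fun w => z₀ + iot n (p w)) ((iot n).comp (p.restrictScalars ℝ)) w :=
    ((iot n).comp (p.restrictScalars ℝ)).hasFDerivAt.const_add z₀
  have h3 : HasFDerivAt (fun w => h (z₀ + iot n (p w)))
      ((fderiv ℝ h (z₀ + iot n (p w))).comp ((iot n).comp (p.restrictScalars ℝ))) w :=
    h1.comp w h2
  set L : V →L[ℝ] ℂ := (fderiv ℝ h (z₀ + iot n (p w))).comp ((iot n).comp (p.restrictScalars ℝ))
    with hL
  have hI : ∀ u, L (Complex.I • u) = Complex.I * L u := by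
    intro u
    simp only [hL, ContinuousLinearMap.comp_apply, ContinuousLinearMap.coe_restrictScalars',
      map_smul, iot_I]
    rw [hh.2 _ hw]
  let L' : V →L[ℂ] ℂ :=
    { toFun := L
      map_add' := map_add L
      map_smul' := by
        intro a u
        have h4 : a • u = a.re • u + a.im • (Complex.I • u) := by
          have h5 : a • u = (((a.re : ℂ) + (a.im : ℂ) * Complex.I)) • u := by
            rw [Complex.re_add_im]
          rw [h5, add_smul, mul_smul]
          rfl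
        rw [h4, map_add, map_smul, map_smul, hI]
        simp only [RingHom.id_apply, smul_eq_mul, Complex.real_smul]
        have h6 : a = (a.re : ℂ) + (a.im : ℂ) * Complex.I := (Complex.re_add_im a).symm
        conv_rhs => rw [h6]
        ring
      cont := L.continuous }
  exact (hasFDerivAt_of_restrictScalars ℝ (f' := L') h3 rfl).differentiableAt

/-- The Łojasiewicz inequality near a point of `ℂ^n × ℂ^n`. -/
def LocalLoj (n N : ℕ) : Prop :=
  ∀ (R : ℝ) (H : (Fin n → ℂ) × (Fin n → ℂ) → Fin N → ℂ), 0 < R →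
    DifferentiableOn ℂ H (ball 0 (2 * R)) → H 0 = 0 →
    ∃ C a δ : ℝ, 0 < C ∧ 0 < a ∧ 0 < δ ∧ ∀ p, ‖p‖ < δ → ∃ p', ‖p'‖ ≤ R ∧ H p' = 0 ∧
      ‖p - p'‖ ≤ C * ‖H p‖ ^ a

section Local

variable {M Z : Type} [MetricSpace M] [MetricSpace Z] {n N : ℕ} {κ P : Type}
  {e : κ → OpenPartialHomeomorph M (Cn n)} {U : P → Set Z} {q : P → Z → Cn N} {f : M → Z}

/-- the chart near a point -/
theorem exists_nhds (hl : ∀ c, KRFZ.IsLip (e c) (e c).source) {c : κ} {a : M}
    (ha : a ∈ (e c).source) : ∃ (C : ℝ) (S : Set M), 0 < C ∧ S ∈ 𝓝 a ∧ S ⊆ (e c).source ∧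
      ∀ x ∈ S, ∀ x' ∈ S, dist x x' ≤ C * dist (e c x) (e c x') := by
  obtain ⟨C, hC, h⟩ := hl c a ha
  rw [nhds_prod_eq] at h
  obtain ⟨t, ht, hts⟩ := Filter.mem_prod_self_iff.1 h
  refine ⟨C, t ∩ (e c).source, hC, inter_mem ht ((e c).open_source.mem_nhds ha),
    inter_subset_right, fun x hx x' hx' => ?_⟩
  exact (hts (mk_mem_prod hx.1 hx'.1)).2

theorem local_eq (hloc : LocalLoj n N) (hl : ∀ c, KRFZ.IsLip (e c) (e c).source)
    (hU : ∀ j, IsOpen (U j)) (hq : ∀ j, KRFZ.IsLip (q j) (U j)) (hf : Continuous f)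
    (hh : ∀ c j, HolOn (KRFZ.fmap e q f c j) (KRFZ.fdom e U f c j)) {a b : M} {c c' : κ} {j : P}
    (ha : a ∈ (e c).source) (hb : b ∈ (e c').source) (hab : f a = f b) (hj : f a ∈ U j) :
    ∃ s ∈ 𝓝 (a, b), ∃ C α : ℝ, 0 < C ∧ 0 < α ∧ ∀ y ∈ s, ∃ x₁ x₁' : M, f x₁ = f x₁' ∧
      dist y.1 x₁ ≤ C * dist (f y.1) (f y.2) ^ α ∧
      dist y.2 x₁' ≤ C * dist (f y.1) (f y.2) ^ α := by
  obtain ⟨Ca, Sa, hCa, hSa, hSas, hLa⟩ := exists_nhds hl ha
  obtain ⟨Cb, Sb, hCb, hSb, hSbs, hLb⟩ := exists_nhds hl hb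
  obtain ⟨Cq, hCq, hQ⟩ := hq j (f a) hj
  rw [nhds_prod_eq] at hQ
  obtain ⟨t, ht, hts⟩ := Filter.mem_prod_self_iff.1 hQ
  set A : (Fin n → ℂ) × (Fin n → ℂ) → M := fun p => (e c).symm (e c a + iot n p.1) with hA
  set B : (Fin n → ℂ) × (Fin n → ℂ) → M := fun p => (e c').symm (e c' b + iot n p.2) with hB
  have hA0 : A 0 = a := by simp [hA, (e c).left_inv ha]
  have hB0 : B 0 = b := by simp [hB, (e c').left_inv hb]
  have hcA : ContinuousAt A 0 := by
    have h1 : ContinuousAt (fun p : (Fin n → ℂ) × (Fin n → ℂ) => e c a + iot n p.1) 0 := by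
      fun_prop
    have h2 : ContinuousAt (e c).symm (e c a + iot n (0 : (Fin n → ℂ) × (Fin n → ℂ)).1) := by
      simp only [Prod.fst_zero, map_zero, add_zero]
      exact (e c).symm.continuousAt (by simpa using (e c).map_source ha)
    exact ContinuousAt.comp (f := fun p : (Fin n → ℂ) × (Fin n → ℂ) => e c a + iot n p.1) h2 h1
  have hcB : ContinuousAt B 0 := by
    have h1 : ContinuousAt (fun p : (Fin n → ℂ) × (Fin n → ℂ) => e c' b + iot n p.2) 0 := by
      fun_prop
    have h2 : ContinuousAt (e c').symm (e c' b + iot n (0 : (Fin n → ℂ) × (Fin n → ℂ)).2) := by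
      simp only [Prod.snd_zero, map_zero, add_zero]
      exact (e c').symm.continuousAt (by simpa using (e c').map_source hb)
    exact ContinuousAt.comp (f := fun p : (Fin n → ℂ) × (Fin n → ℂ) => e c' b + iot n p.2) h2 h1
  have htU : t ∩ U j ∈ 𝓝 (f a) := inter_mem ht ((hU j).mem_nhds hj)
  have hev : ∀ᶠ p in 𝓝 (0 : (Fin n → ℂ) × (Fin n → ℂ)),
      (e c a + iot n p.1 ∈ (e c).target ∧ A p ∈ Sa ∧ f (A p) ∈ t ∩ U j) ∧
      (e c' b + iot n p.2 ∈ (e c').target ∧ B p ∈ Sb ∧ f (B p) ∈ t ∩ U j) := by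
    refine Filter.Eventually.and ?_ ?_
    · refine Filter.Eventually.and ?_ (Filter.Eventually.and ?_ ?_)
      · have h1 : ContinuousAt (fun p : (Fin n → ℂ) × (Fin n → ℂ) => e c a + iot n p.1) 0 := by
          fun_prop
        refine h1.eventually ((e c).open_target.mem_nhds ?_)
        simpa using (e c).map_source ha
      · refine hcA.eventually ?_
        rw [hA0]
        exact hSa
      · refine (hf.continuousAt.comp hcA).eventually ?_
        change _ ∈ 𝓝 (f (A 0))
        rw [hA0]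
        exact htU
    · refine Filter.Eventually.and ?_ (Filter.Eventually.and ?_ ?_)
      · have h1 : ContinuousAt (fun p : (Fin n → ℂ) × (Fin n → ℂ) => e c' b + iot n p.2) 0 := by
          fun_prop
        refine h1.eventually ((e c').open_target.mem_nhds ?_)
        simpa using (e c').map_source hb
      · refine hcB.eventually ?_
        rw [hB0]
        exact hSb
      · refine (hf.continuousAt.comp hcB).eventually ?_
        change _ ∈ 𝓝 (f (B 0))
        rw [hB0, ← hab]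
        exact htU
  obtain ⟨r, hr, hball⟩ := Metric.eventually_nhds_iff_ball.1 hev
  set R : ℝ := r / 2 with hR
  have hR0 : 0 < R := by positivity
  have h2R : 2 * R = r := by rw [hR]; ring
  set H : (Fin n → ℂ) × (Fin n → ℂ) → Fin N → ℂ := fun p => ccv (q j (f (A p))) - ccv (q j (f (B p)))
    with hH
  have hdH : DifferentiableOn ℂ H (ball 0 (2 * R)) := by
    rw [h2R]
    intro p hp
    refine DifferentiableAt.differentiableWithinAt ?_
    obtain ⟨⟨p1, p2, p3⟩, p4, p5, p6⟩ := hball p hp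
    refine differentiableAt_pi.2 fun k => ?_
    have hop : ∀ c, IsOpen (KRFZ.fdom e U f c j) := fun c =>
      (e c).isOpen_inter_preimage_symm ((hU j).preimage hf)
    have d1 := differentiableAt_of_holC (hop c) (NF.holOn_cc (hop c) (hh c j) k) (e c a)
      (ContinuousLinearMap.fst ℂ (Fin n → ℂ) (Fin n → ℂ)) (w := p) ⟨p1, p3.2⟩
    have d2 := differentiableAt_of_holC (hop c') (NF.holOn_cc (hop c') (hh c' j) k) (e c' b)
      (ContinuousLinearMap.snd ℂ (Fin n → ℂ) (Fin n → ℂ)) (w := p) ⟨p4, p6.2⟩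
    exact d1.sub d2
  have hH0 : H 0 = 0 := by simp [hH, hA0, hB0, hab]
  obtain ⟨C, α, δ, hC, hα, hδ, hp⟩ := hloc R H hR0 hdH hH0
  -- the neighbourhood
  have hS1 : ∀ᶠ x in 𝓝 a, x ∈ Sa ∧ f x ∈ t ∧ dist (e c x) (e c a) < δ / 2 := by
    refine Filter.Eventually.and hSa (Filter.Eventually.and (hf.continuousAt.eventually ht) ?_)
    exact ((e c).continuousAt ha).eventually (ball_mem_nhds _ (by positivity))
  have hS2 : ∀ᶠ x in 𝓝 b, x ∈ Sb ∧ f x ∈ t ∧ dist (e c' x) (e c' b) < δ / 2 := by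
    refine Filter.Eventually.and hSb (Filter.Eventually.and (hf.continuousAt.eventually ?_) ?_)
    · rw [← hab]
      exact ht
    · exact ((e c').continuousAt hb).eventually (ball_mem_nhds _ (by positivity))
  have hS := hS1.prod_nhds hS2
  set Q : ℝ := C * (2 * Cq) ^ α with hQdef
  have hQ0 : 0 < Q := by positivity
  refine ⟨_, hS, (Ca + Cb) * Q, α, by positivity, hα, ?_⟩
  rintro ⟨x, x'⟩ ⟨⟨hx1, hx2, hx3⟩, hx1', hx2', hx3'⟩
  set p : (Fin n → ℂ) × (Fin n → ℂ) := (ccv (e c x - e c a), ccv (e c' x' - e c' b)) with hpdef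
  have hpn : ‖p‖ < δ := by
    refine max_lt ?_ ?_
    · have h1 := norm_ccv_le (e c x - e c a)
      have h2 : ‖e c x - e c a‖ < δ / 2 := by rw [← dist_eq_norm]; exact hx3
      change ‖ccv (e c x - e c a)‖ < δ
      linarith
    · have h1 := norm_ccv_le (e c' x' - e c' b)
      have h2 : ‖e c' x' - e c' b‖ < δ / 2 := by rw [← dist_eq_norm]; exact hx3'
      change ‖ccv (e c' x' - e c' b)‖ < δ
      linarith
  have hAp : A p = x := by
    simp only [hA, hpdef, iot_ccv, add_sub_cancel]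
    exact (e c).left_inv (hSas hx1)
  have hBp : B p = x' := by
    simp only [hB, hpdef, iot_ccv, add_sub_cancel]
    exact (e c').left_inv (hSbs hx1')
  obtain ⟨p', hp'R, hp'0, hp'd⟩ := hp p hpn
  have hp'b : p' ∈ ball (0 : (Fin n → ℂ) × (Fin n → ℂ)) r := by
    rw [mem_ball_zero_iff]
    linarith
  obtain ⟨⟨p1, p2, p3⟩, p4, p5, p6⟩ := hball p' hp'b
  have hHp : ‖H p‖ ≤ 2 * Cq * dist (f x) (f x') := by
    have h1 : H p = ccv (q j (f x)) - ccv (q j (f x')) := by simp only [hH, hAp, hBp]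
    have h2 := (hts (mk_mem_prod hx2 hx2')).1
    have h3 : dist (q j (f x)) (q j (f x')) ≤ Cq * dist (f x) (f x') := h2
    rw [h1]
    refine (norm_ccv_sub_le _ _).trans ?_
    linarith
  have hpd : ‖p - p'‖ ≤ Q * dist (f x) (f x') ^ α := by
    refine hp'd.trans ?_
    rw [hQdef, mul_assoc, ← Real.mul_rpow (by positivity) dist_nonneg]
    exact mul_le_mul_of_nonneg_left (Real.rpow_le_rpow (norm_nonneg _) hHp hα.le) hC.le
  have hD0 : 0 ≤ Q * dist (f x) (f x') ^ α := by positivity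
  refine ⟨A p', B p', ?_, ?_, ?_⟩
  · have h1 : q j (f (A p')) = q j (f (B p')) := by
      have h2 : ccv (q j (f (A p'))) = ccv (q j (f (B p'))) := sub_eq_zero.1 hp'0
      rw [← iot_ccv (q j (f (A p'))), h2, iot_ccv]
    have h3 := (hts (mk_mem_prod p3.1 p6.1)).2
    have h4 : dist (f (A p')) (f (B p')) ≤ Cq * dist (q j (f (A p'))) (q j (f (B p'))) := h3
    rw [h1, dist_self, mul_zero] at h4
    exact dist_le_zero.1 h4
  · have h1 : dist x (A p') ≤ Ca * dist (e c x) (e c (A p')) := hLa x hx1 _ p2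
    have h2 : e c (A p') = e c a + iot n p'.1 := (e c).right_inv p1
    have h3 : dist (e c x) (e c (A p')) ≤ ‖p - p'‖ := by
      have h4 : e c x - (e c a + iot n p'.1) = iot n ((p - p').1) := by
        rw [Prod.fst_sub, map_sub]
        simp only [hpdef, iot_ccv]
        abel
      rw [h2, dist_eq_norm, h4]
      exact (norm_iot_le _).trans (norm_fst_le _)
    calc dist x (A p') ≤ Ca * (Q * dist (f x) (f x') ^ α) :=
          h1.trans (mul_le_mul_of_nonneg_left (h3.trans hpd) hCa.le)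
      _ ≤ (Ca + Cb) * (Q * dist (f x) (f x') ^ α) :=
          mul_le_mul_of_nonneg_right (by linarith) hD0
      _ = (Ca + Cb) * Q * dist (f x) (f x') ^ α := by ring
  · have h1 : dist x' (B p') ≤ Cb * dist (e c' x') (e c' (B p')) := hLb x' hx1' _ p5
    have h2 : e c' (B p') = e c' b + iot n p'.2 := (e c').right_inv p4
    have h3 : dist (e c' x') (e c' (B p')) ≤ ‖p - p'‖ := by
      have h4 : e c' x' - (e c' b + iot n p'.2) = iot n ((p - p').2) := by
        rw [Prod.snd_sub, map_sub]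
        simp only [hpdef, iot_ccv]
        abel
      rw [h2, dist_eq_norm, h4]
      exact (norm_iot_le _).trans (norm_snd_le _)
    calc dist x' (B p') ≤ Cb * (Q * dist (f x) (f x') ^ α) :=
          h1.trans (mul_le_mul_of_nonneg_left (h3.trans hpd) hCb.le)
      _ ≤ (Ca + Cb) * (Q * dist (f x) (f x') ^ α) :=
          mul_le_mul_of_nonneg_right (by linarith) hD0
      _ = (Ca + Cb) * Q * dist (f x) (f x') ^ α := by ring

theorem isLoj_of [CompactSpace M] (hloc : LocalLoj n N) (he : IsAtlas e)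
    (hl : ∀ c, KRFZ.IsLip (e c) (e c).source)
    (hU : ∀ j, IsOpen (U j)) (hc : ∀ z, ∃ j, z ∈ U j) (hq : ∀ j, KRFZ.IsLip (q j) (U j))
    (hf : Continuous f) (hh : ∀ c j, HolOn (KRFZ.fmap e q f c j) (KRFZ.fdom e U f c j)) :
    KRFZ.IsLoj f := by
  obtain ⟨Bd, hBd⟩ : ∃ Bd : ℝ, ∀ x x' : M, dist (f x) (f x') ≤ Bd := by
    obtain ⟨Bd, hBd⟩ := Metric.isBounded_iff.1 (isCompact_range hf).isBounded
    exact ⟨Bd, fun x x' => hBd (mem_range_self x) (mem_range_self x')⟩
  obtain ⟨Bm, hBm⟩ : ∃ Bm : ℝ, ∀ x x' : M, dist x x' ≤ Bm := by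
    obtain ⟨Bm, hBm⟩ := Metric.isBounded_iff.1 (isCompact_univ (X := M)).isBounded
    exact ⟨Bm, fun x x' => hBm (mem_univ x) (mem_univ x')⟩
  have key : ∃ C a : ℝ, 0 < C ∧ 0 < a ∧ ∀ y ∈ (univ : Set (M × M)), ∃ x₁ x₁' : M, f x₁ = f x₁' ∧
      dist y.1 x₁ ≤ C * dist (f y.1) (f y.2) ^ a ∧
      dist y.2 x₁' ≤ C * dist (f y.1) (f y.2) ^ a := by
    refine isCompact_univ.induction_on
      (p := fun s : Set (M × M) => ∃ C a : ℝ, 0 < C ∧ 0 < a ∧ ∀ y ∈ s,
      ∃ x₁ x₁' : M, f x₁ = f x₁' ∧ dist y.1 x₁ ≤ C * dist (f y.1) (f y.2) ^ a ∧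
      dist y.2 x₁' ≤ C * dist (f y.1) (f y.2) ^ a) ?_ ?_ ?_ ?_
    · exact ⟨1, 1, one_pos, one_pos, fun y hy => absurd hy (notMem_empty _)⟩
    · rintro s s' hss ⟨C, a, hC, ha, h⟩
      exact ⟨C, a, hC, ha, fun y hy => h y (hss hy)⟩
    · rintro s s' ⟨C, a, hC, ha, h⟩ ⟨C', a', hC', ha', h'⟩
      set B : ℝ := max 1 Bd with hB
      have hB1 : 1 ≤ B := le_max_left _ _
      have hB0 : 0 < B := by linarith
      have cmp : ∀ (D α β : ℝ), 0 < D → 0 < α → α ≤ β → ∀ d : ℝ, 0 ≤ d → d ≤ B →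
          D * d ^ β ≤ D * B ^ β * d ^ α := by
        intro D α β hD hα hαβ d hd hdB
        rcases hd.eq_or_lt with hd0 | hd0
        · rw [← hd0, Real.zero_rpow (hα.trans_le hαβ).ne', Real.zero_rpow hα.ne']
          simp
        · have h1 : (d / B) ^ β ≤ (d / B) ^ α :=
            Real.rpow_le_rpow_of_exponent_ge (by positivity) ((div_le_one hB0).2 hdB) hαβ
          have h2 : d ^ β = B ^ β * (d / B) ^ β := by
            rw [← Real.mul_rpow hB0.le (by positivity), mul_div_cancel₀ _ hB0.ne']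
          have h3 : (d / B) ^ α ≤ d ^ α :=
            Real.rpow_le_rpow (by positivity) (div_le_self hd hB1) hα.le
          rw [h2, mul_assoc]
          exact mul_le_mul_of_nonneg_left
            (mul_le_mul_of_nonneg_left (h1.trans h3) (by positivity)) hD.le
      refine ⟨C * B ^ a + C' * B ^ a', min a a', by positivity, lt_min ha ha', fun y hy => ?_⟩
      have hd0 : 0 ≤ dist (f y.1) (f y.2) := dist_nonneg
      have hdB : dist (f y.1) (f y.2) ≤ B := (hBd _ _).trans (le_max_right _ _)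
      have hm : 0 ≤ dist (f y.1) (f y.2) ^ (min a a') := by positivity
      have k1 : 0 ≤ C * B ^ a := by positivity
      have k2 : 0 ≤ C' * B ^ a' := by positivity
      rcases hy with hy | hy
      · obtain ⟨x₁, x₁', h1, h2, h3⟩ := h y hy
        have h4 := cmp C (min a a') a hC (lt_min ha ha') (min_le_left _ _) _ hd0 hdB
        have h5 : C * dist (f y.1) (f y.2) ^ a ≤
            (C * B ^ a + C' * B ^ a') * dist (f y.1) (f y.2) ^ (min a a') := by nlinarith
        exact ⟨x₁, x₁', h1, h2.trans h5, h3.trans h5⟩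
      · obtain ⟨x₁, x₁', h1, h2, h3⟩ := h' y hy
        have h4 := cmp C' (min a a') a' hC' (lt_min ha ha') (min_le_right _ _) _ hd0 hdB
        have h5 : C' * dist (f y.1) (f y.2) ^ a' ≤
            (C * B ^ a + C' * B ^ a') * dist (f y.1) (f y.2) ^ (min a a') := by nlinarith
        exact ⟨x₁, x₁', h1, h2.trans h5, h3.trans h5⟩
    · rintro ⟨a, b⟩ -
      rw [nhdsWithin_univ]
      by_cases hab : f a = f b
      · obtain ⟨c, hca⟩ := he.cover a
        obtain ⟨c', hcb⟩ := he.cover b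
        obtain ⟨j, hj⟩ := hc (f a)
        exact local_eq hloc hl hU hq hf hh hca hcb hab hj
      · set ε : ℝ := dist (f a) (f b) / 2 with hε
        have hε0 : 0 < ε := by
          have := dist_pos.2 hab
          positivity
        have h1 : ∀ᶠ y : M × M in 𝓝 (a, b), ε < dist (f y.1) (f y.2) := by
          have h2 : ContinuousAt (fun y : M × M => dist (f y.1) (f y.2)) (a, b) := by fun_prop
          refine h2.eventually (lt_mem_nhds ?_)
          have := dist_pos.2 hab
          simp only [hε]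
          linarith
        have hBm0 : 0 ≤ Bm := (dist_nonneg (x := a) (y := a)).trans (hBm a a)
        refine ⟨_, h1, (Bm + 1) / ε, 1, by positivity, one_pos, fun y hy => ?_⟩
        refine ⟨y.1, y.1, rfl, ?_, ?_⟩
        · rw [dist_self]
          positivity
        · have h2 : (1 : ℝ) ≤ dist (f y.1) (f y.2) / ε := by
            rw [one_le_div hε0]
            exact le_of_lt hy
          have h3 : (Bm + 1) / ε * dist (f y.1) (f y.2) ^ (1 : ℝ) =
              (Bm + 1) * (dist (f y.1) (f y.2) / ε) := by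
            rw [Real.rpow_one]
            ring
          rw [h3]
          have h4 := hBm y.2 y.1
          nlinarith
  obtain ⟨C, a, hC, ha, h⟩ := key
  exact ⟨C, a, hC, ha, fun x x' => h (x, x') (mem_univ _)⟩

end Local

end Pool.Agent.KRFLj

end

section

/-!
# Holomorphic curves in the domain of an immersion
-/

open scoped ContDiff
open Metric Set Filter Topology Pool.Agent.ToricKRF Pool.Agent.ToricKRF.G Pool.Agent.KRFS
  Pool.Agent.KRFF Pool.Agent.KRFLj

namespace Pool.Agent.KRFW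

namespace LA

variable {n : ℕ} {ι : Type} [Fintype ι]

/-- A holomorphic map with injective derivative has a local holomorphic left inverse. -/
theorem exists_left_inv {S : Set (Cn n)} (hS : IsOpen S) {z₀ : Cn n} (hz₀ : z₀ ∈ S)
    {Φ : Cn n → ι → ℂ} (hΦ : ∀ i, NF.HolC (fun z => Φ z i) S)
    (himm : ∀ v, (∀ i, fderiv ℝ (fun z => Φ z i) z₀ v = 0) → v = 0) :
    ∃ (O : Set (ι → ℂ)) (Γ : (ι → ℂ) → (Fin n → ℂ)), IsOpen O ∧ Φ z₀ ∈ O ∧
      DifferentiableOn ℂ Γ O ∧ ∀ᶠ z in 𝓝 z₀, iot n (Γ (Φ z)) = z := by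
  -- complex coordinates
  set F : (Fin n → ℂ) → ι → ℂ := fun w => Φ (z₀ + iot n w) with hF
  set T : Set (Fin n → ℂ) := {w | z₀ + iot n w ∈ S} with hT
  have hTo : IsOpen T := hS.preimage (continuous_const.add (iot n).continuous)
  have h0T : (0 : Fin n → ℂ) ∈ T := by
    change z₀ + iot n 0 ∈ S
    rw [map_zero, add_zero]
    exact hz₀
  have hFd : DifferentiableOn ℂ F T := by
    rw [differentiableOn_pi]
    intro i w hw
    exact (differentiableAt_of_holC hS (hΦ i) z₀ (ContinuousLinearMap.id ℂ (Fin n → ℂ))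
      (w := w) hw).differentiableWithinAt
  have hF0 : DifferentiableAt ℂ F 0 := (hFd 0 h0T).differentiableAt (hTo.mem_nhds h0T)
  set L : (Fin n → ℂ) →L[ℂ] (ι → ℂ) := fderiv ℂ F 0 with hL
  have hLd : HasFDerivAt F L 0 := hF0.hasFDerivAt
  -- the derivative is injective
  have hLi : ∀ w, L w = 0 → w = 0 := by
    intro w hw
    have h1 : ∀ i, fderiv ℝ (fun z => Φ z i) z₀ (iot n w) = 0 := by
      intro i
      have h2 : HasFDerivAt (fun w => F w i)
          (((ContinuousLinearMap.proj i).comp L).restrictScalars ℝ) 0 :=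
        (hasFDerivAt_pi'.1 hLd i).restrictScalars ℝ
      have h3 : HasFDerivAt (fun z => Φ z i) (fderiv ℝ (fun z => Φ z i) z₀) (z₀ + iot n 0) := by
        rw [map_zero, add_zero]
        exact (NF.diffAt hS (hΦ i).1 hz₀).hasFDerivAt
      have h4 : HasFDerivAt (fun w => F w i) ((fderiv ℝ (fun z => Φ z i) z₀).comp (iot n)) 0 :=
        h3.comp (f := fun w => z₀ + iot n w) 0 ((iot n).hasFDerivAt.const_add z₀)
      have h5 := congrArg (fun A : (Fin n → ℂ) →L[ℝ] ℂ => A w) (h4.unique h2)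
      simp only [ContinuousLinearMap.comp_apply, ContinuousLinearMap.coe_restrictScalars',
        ContinuousLinearMap.proj_apply] at h5
      rw [h5, hw]
      rfl
    have h6 := himm _ h1
    have h7 : ccv (iot n w) = ccv (0 : Cn n) := by rw [h6]
    rw [ccv_iot] at h7
    rw [h7]
    funext k
    apply Complex.ext <;> simp [ccv, cc]
  obtain ⟨A', hA'⟩ := LinearMap.exists_leftInverse_of_injective L.toLinearMap
    (LinearMap.ker_eq_bot'.2 hLi)
  set A : (ι → ℂ) →L[ℂ] (Fin n → ℂ) := LinearMap.toContinuousLinearMap A' with hA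
  have hAL : ∀ w, A (L w) = w := fun w => congrArg (fun B : (Fin n → ℂ) →ₗ[ℂ] (Fin n → ℂ) => B w) hA'
  -- the local diffeomorphism
  set Ψ : (Fin n → ℂ) → (Fin n → ℂ) := fun w => A (F w) with hΨ
  have hΨd : DifferentiableOn ℂ Ψ T := A.differentiable.comp_differentiableOn hFd
  have hΨc : ContDiffAt ℂ 1 Ψ 0 := by
    have := SCV.contDiffAt_of_differentiableOn hTo hΨd h0T (n := 1)
    exact_mod_cast this
  have hΨ' : HasFDerivAt Ψ ((ContinuousLinearEquiv.refl ℂ (Fin n → ℂ) :
      (Fin n → ℂ) ≃L[ℂ] (Fin n → ℂ)) : (Fin n → ℂ) →L[ℂ] (Fin n → ℂ)) 0 := by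
    have h1 : HasFDerivAt Ψ (A.comp L) 0 := A.hasFDerivAt.comp 0 hLd
    have h2 : A.comp L = ((ContinuousLinearEquiv.refl ℂ (Fin n → ℂ) :
      (Fin n → ℂ) ≃L[ℂ] (Fin n → ℂ)) : (Fin n → ℂ) →L[ℂ] (Fin n → ℂ)) := by
      ext1 w
      exact hAL w
    rwa [h2] at h1
  have hs := hΨc.hasStrictFDerivAt' hΨ' (by norm_num)
  set K := hs.localInverse Ψ (ContinuousLinearEquiv.refl ℂ (Fin n → ℂ)) 0 with hK
  have hKc : ContDiffAt ℂ 1 K (Ψ 0) := hΨc.to_localInverse hΨ' (by norm_num)
  have hKl : ∀ᶠ w in 𝓝 (0 : Fin n → ℂ), K (Ψ w) = w := hs.eventually_left_inverse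
  obtain ⟨O', hO'1, hO'2, hO'3⟩ : ∃ O' : Set (Fin n → ℂ), IsOpen O' ∧ Ψ 0 ∈ O' ∧
      DifferentiableOn ℂ K O' := by
    have h1 := hKc.eventually (by simp)
    obtain ⟨O', h2, h3, h4⟩ := _root_.eventually_nhds_iff.1 h1
    exact ⟨O', h3, h4, fun w hw => ((h2 w hw).differentiableAt (by norm_num)).differentiableWithinAt⟩
  refine ⟨A ⁻¹' O', fun w => ccv z₀ + K (A w), hO'1.preimage A.continuous, ?_, ?_, ?_⟩
  · have : Ψ 0 = A (Φ z₀) := by simp only [hΨ, hF, map_zero, add_zero]
    rw [mem_preimage, ← this]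
    exact hO'2
  · exact (differentiableOn_const _).add (hO'3.comp A.differentiable.differentiableOn
      (fun w hw => hw))
  · have h1 : Tendsto (fun z : Cn n => ccv (z - z₀)) (𝓝 z₀) (𝓝 0) := by
      rw [tendsto_zero_iff_norm_tendsto_zero]
      have h2 : Tendsto (fun z : Cn n => 2 * ‖z - z₀‖) (𝓝 z₀) (𝓝 0) := by
        have h3 : Continuous fun z : Cn n => 2 * ‖z - z₀‖ := by fun_prop
        have := h3.tendsto z₀
        simpa using this
      exact squeeze_zero (fun z => norm_nonneg _) (fun z => norm_ccv_le _) h2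
    filter_upwards [h1.eventually hKl] with z hz
    have h2 : z₀ + iot n (ccv (z - z₀)) = z := by rw [iot_ccv]; abel
    have h3 : Ψ (ccv (z - z₀)) = A (Φ z) := by simp only [hΨ, hF, h2]
    rw [h3] at hz
    rw [hz, map_add, iot_ccv, h2]

/-- Curves whose image under an immersion is holomorphic. -/
theorem holD_of {S : Set (Cn n)} (hS : IsOpen S) {z₀ : Cn n} (hz₀ : z₀ ∈ S)
    {Φ : Cn n → ι → ℂ} (hΦ : ∀ i, NF.HolC (fun z => Φ z i) S)
    (himm : ∀ v, (∀ i, fderiv ℝ (fun z => Φ z i) z₀ v = 0) → v = 0) {g : ℂ → Cn n} {s : ℂ}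
    (hgc : ContinuousAt g s) (hgs : g s = z₀) {r : ℝ} (hr : 0 < r)
    (hh : ∀ i, DifferentiableOn ℂ (fun s' => Φ (g s') i) (ball s r)) :
    ∃ r', 0 < r' ∧ r' ≤ r ∧ KRFZ.HolD g (ball s r') := by
  obtain ⟨O, Γ, hO, hΦO, hΓ, hl⟩ := exists_left_inv hS hz₀ hΦ himm
  have hh' : DifferentiableOn ℂ (fun s' => Φ (g s')) (ball s r) := differentiableOn_pi.2 hh
  have h1 : ∀ᶠ s' in 𝓝 s, iot n (Γ (Φ (g s'))) = g s' := by
    have : Tendsto g (𝓝 s) (𝓝 z₀) := by rw [← hgs]; exact hgc
    exact this.eventually hl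
  have h2 : ∀ᶠ s' in 𝓝 s, Φ (g s') ∈ O := by
    have h3 : ContinuousAt (fun s' => Φ (g s')) s :=
      hh'.continuousOn.continuousAt (isOpen_ball.mem_nhds (mem_ball_self hr))
    refine h3.eventually_mem (hO.mem_nhds ?_)
    rw [hgs]
    exact hΦO
  obtain ⟨ε, hε, hball⟩ := Metric.eventually_nhds_iff_ball.1 (h1.and h2)
  refine ⟨min ε r, lt_min hε hr, min_le_right _ _, ?_⟩
  have hsub : ball s (min ε r) ⊆ ball s r := ball_subset_ball (min_le_right _ _)
  have hsub' : ball s (min ε r) ⊆ ball s ε := ball_subset_ball (min_le_left _ _)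
  set k : ℂ → Fin n → ℂ := fun s' => Γ (Φ (g s')) with hk
  have hkd : DifferentiableOn ℂ k (ball s (min ε r)) :=
    hΓ.comp (hh'.mono hsub) (fun s' hs' => (hball s' (hsub' hs')).2)
  have hgk : ∀ s' ∈ ball s (min ε r), g s' = iot n (k s') := fun s' hs' =>
    (hball s' (hsub' hs')).1.symm
  constructor
  · have h3 : ContDiffOn ℂ ∞ k (ball s (min ε r)) := hkd.contDiffOn isOpen_ball
    have h4 : ContDiffOn ℝ ∞ k (ball s (min ε r)) := h3.restrict_scalars ℝ
    exact ((iot n).contDiff.comp_contDiffOn h4).congr hgk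
  · intro s' hs'
    have h3 : HasFDerivAt k (fderiv ℂ k s') s' :=
      (hkd.differentiableAt (isOpen_ball.mem_nhds hs')).hasFDerivAt
    have h4 : HasFDerivAt (fun s' => iot n (k s'))
        ((iot n).comp ((fderiv ℂ k s').restrictScalars ℝ)) s' :=
      (iot n).hasFDerivAt.comp s' (h3.restrictScalars ℝ)
    have h5 : g =ᶠ[𝓝 s'] fun s' => iot n (k s') := by
      filter_upwards [isOpen_ball.mem_nhds hs'] with t ht
      exact hgk t ht
    have h6 : fderiv ℝ g s' = (iot n).comp ((fderiv ℂ k s').restrictScalars ℝ) :=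
      (h4.congr_of_eventuallyEq h5).fderiv
    rw [h6]
    simp only [ContinuousLinearMap.comp_apply, ContinuousLinearMap.coe_restrictScalars']
    have h7 : (fderiv ℂ k s') Complex.I = Complex.I • (fderiv ℂ k s') 1 := by
      rw [← map_smul, smul_eq_mul, mul_one]
    rw [h7, iot_I]

end LA

end Pool.Agent.KRFW

end
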