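import Pool.Agent.Work.MP_a2bf38_gt.Fu.Lj.Defs
import Pool.Agent.Work.MP_a2bf38_gt.Fu.Ext.MP_0e9e72_an.SCVA

section

/-!
# Multivalued holomorphic maps are Hölder continuous
-/

open Metric Set Filter Topology

namespace Pool.Agent.KRFLj

variable {E V : Type} [NormedAddCommGroup E] [NormedSpace ℂ E] [NormedAddCommGroup V]
  [NormedSpace ℂ V]

variable {R δ : ℝ} {D : ℕ} {g : E → Fin D → V}

/-- Schwarz lemma on lines -/
lemma lip_of_bdd {F : E → ℂ} {M : ℝ} (hδ : 0 < δ) (hF : DifferentiableOn ℂ F (ball 0 δ))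
    (hM : ∀ z ∈ ball (0 : E) δ, ‖F z‖ ≤ M) {z z₁ : E} (hz : z ∈ ball (0 : E) (δ / 2))
    (hz₁ : z₁ ∈ ball (0 : E) (δ / 2)) :
    ‖F z₁ - F z‖ ≤ (2 * M + 1) * 2 / δ * ‖z - z₁‖ := by
  have hM0 : 0 ≤ M := (norm_nonneg _).trans (hM 0 (mem_ball_self hδ))
  rw [mem_ball_zero_iff] at hz hz₁
  have hin : ∀ t : ℂ, ‖t‖ * ‖z₁ - z‖ < δ / 2 → z + t • (z₁ - z) ∈ ball (0 : E) δ := by
    intro t ht
    rw [mem_ball_zero_iff]
    calc ‖z + t • (z₁ - z)‖ ≤ ‖z‖ + ‖t • (z₁ - z)‖ := norm_add_le _ _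
      _ = ‖z‖ + ‖t‖ * ‖z₁ - z‖ := by rw [norm_smul]
      _ < δ := by linarith
  have hr : ‖z₁ - z‖ = ‖z - z₁‖ := norm_sub_rev _ _
  rcases lt_or_ge ‖z₁ - z‖ (δ / 2) with h | h
  · rcases eq_or_lt_of_le (norm_nonneg (z₁ - z)) with h0 | h0
    · have : z₁ = z := sub_eq_zero.1 (norm_eq_zero.1 h0.symm)
      subst this
      simp
    · set r := ‖z₁ - z‖ with hrdef
      have hR1 : 0 < δ / 2 / r := by positivity
      have hd : DifferentiableOn ℂ (fun t : ℂ => F (z + t • (z₁ - z))) (ball 0 (δ / 2 / r)) := by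
        refine hF.comp (f := fun t : ℂ => z + t • (z₁ - z)) ?_ ?_
        · exact ((differentiable_id.smul_const _).const_add _).differentiableOn
        · intro t ht
          rw [mem_ball_zero_iff, lt_div_iff₀ h0] at ht
          exact hin t ht
      have hmaps : MapsTo (fun t : ℂ => F (z + t • (z₁ - z))) (ball 0 (δ / 2 / r))
          (closedBall ((fun t : ℂ => F (z + t • (z₁ - z))) 0) (2 * M + 1)) := by
        intro t ht
        rw [mem_ball_zero_iff, lt_div_iff₀ h0] at ht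
        rw [mem_closedBall_iff_norm]
        have h1 := hM _ (hin t ht)
        have h2 := hM _ (hin 0 (by simpa using half_pos hδ))
        calc ‖F (z + t • (z₁ - z)) - F (z + (0 : ℂ) • (z₁ - z))‖
            ≤ ‖F (z + t • (z₁ - z))‖ + ‖F (z + (0 : ℂ) • (z₁ - z))‖ := norm_sub_le _ _
          _ ≤ 2 * M + 1 := by linarith
      have h1in : (1 : ℂ) ∈ ball (0 : ℂ) (δ / 2 / r) := by
        rw [mem_ball_zero_iff, norm_one, lt_div_iff₀ h0, one_mul]
        exact h
      have := Complex.dist_le_div_mul_dist_of_mapsTo_ball hd hmaps h1in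
      rw [dist_eq_norm, dist_zero_right, norm_one, mul_one] at this
      simp only [one_smul, zero_smul, add_zero, add_sub_cancel] at this
      refine this.trans (le_of_eq ?_)
      rw [← hr]
      field_simp
  · have h2 := hM z (by rw [mem_ball_zero_iff]; linarith)
    have h3 := hM z₁ (by rw [mem_ball_zero_iff]; linarith)
    calc ‖F z₁ - F z‖ ≤ ‖F z₁‖ + ‖F z‖ := norm_sub_le _ _
      _ ≤ 2 * M + 1 := by linarith
      _ = (2 * M + 1) * 2 / δ * (δ / 2) := by field_simp
      _ ≤ (2 * M + 1) * 2 / δ * ‖z - z₁‖ := by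
          rw [← hr]
          exact mul_le_mul_of_nonneg_left h (by positivity)

lemma exists_root_le {a : Fin D → ℝ} (hD : 0 < D) (ha : ∀ i, 0 ≤ a i) {c : ℝ}
    (hc : ∏ i, a i ≤ c) : ∃ i, a i ≤ c ^ (1 / (D : ℝ)) := by
  obtain ⟨i, -, hi⟩ := Finset.exists_min_image Finset.univ a ⟨⟨0, hD⟩, Finset.mem_univ _⟩
  refine ⟨i, ?_⟩
  have h1 : a i ^ D ≤ c := by
    calc a i ^ D = ∏ _j : Fin D, a i := by simp
      _ ≤ ∏ j, a j := Finset.prod_le_prod (fun _ _ => ha i) fun j hj => hi j hj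
      _ ≤ c := hc
  calc a i = (a i ^ D) ^ ((D : ℝ)⁻¹) := (Real.pow_rpow_inv_natCast (ha i) hD.ne').symm
    _ ≤ c ^ ((D : ℝ)⁻¹) := Real.rpow_le_rpow (by positivity [ha i]) h1 (by positivity)
    _ = c ^ (1 / (D : ℝ)) := by rw [one_div]

/-- one linear form -/
lemma Sheet.lin_holder (hR : 0 < R) (hδ : 0 < δ) (hD : 0 < D) (hg : Sheet R δ g)
    (l : V →L[ℂ] ℂ) : ∃ C, 0 ≤ C ∧ ∀ z ∈ ball (0 : E) (δ / 2), ∀ z₁ ∈ ball (0 : E) (δ / 2),
      ∀ i, ∃ i', ‖l (g z i - g z₁ i')‖ ≤ C * ‖z - z₁‖ ^ (1 / (D : ℝ)) := by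
  set M : ℝ := (‖l‖ * R + ‖l‖ * R) ^ D with hM
  refine ⟨((2 * M + 1) * 2 / δ) ^ (1 / (D : ℝ)), by positivity, ?_⟩
  intro z hz z₁ hz₁ i
  have hzδ : z ∈ ball (0 : E) δ := ball_subset_ball (by linarith) hz
  have hz₁δ : z₁ ∈ ball (0 : E) δ := ball_subset_ball (by linarith) hz₁
  have hle : ∀ w ∈ ball (0 : E) δ, ∀ j, ‖l (g w j)‖ ≤ ‖l‖ * R := fun w hw j =>
    (l.le_opNorm _).trans (mul_le_mul_of_nonneg_left (hg.mem w hw j) (norm_nonneg _))
  have hF : DifferentiableOn ℂ (fun w => ∏ j, (l (g z i) - l (g w j))) (ball 0 δ) := by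
    have := hg.esymm (h := fun v => l (g z i) - l v)
      ((differentiable_const _).sub l.differentiable).differentiableOn D
    have e : Finset.powersetCard D (Finset.univ : Finset (Fin D)) = {Finset.univ} := by
      have := Finset.powersetCard_self (Finset.univ : Finset (Fin D))
      rwa [Finset.card_univ, Fintype.card_fin] at this
    simpa only [e, Finset.sum_singleton] using this
  have hMb : ∀ w ∈ ball (0 : E) δ, ‖∏ j, (l (g z i) - l (g w j))‖ ≤ M := by
    intro w hw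
    rw [norm_prod]
    calc ∏ j, ‖l (g z i) - l (g w j)‖ ≤ ∏ _j : Fin D, (‖l‖ * R + ‖l‖ * R) :=
          Finset.prod_le_prod (fun _ _ => norm_nonneg _) fun j _ =>
            (norm_sub_le _ _).trans (add_le_add (hle z hzδ i) (hle w hw j))
      _ = M := by simp [hM]
  have h1 := lip_of_bdd hδ hF hMb hz hz₁
  have h0 : ∏ j, (l (g z i) - l (g z j)) = 0 :=
    Finset.prod_eq_zero (Finset.mem_univ i) (sub_self _)
  simp only [h0, sub_zero] at h1
  rw [norm_prod] at h1
  obtain ⟨i', hi'⟩ := exists_root_le hD (fun j => norm_nonneg (l (g z i) - l (g z₁ j))) h1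
  refine ⟨i', ?_⟩
  rw [map_sub]
  refine hi'.trans (le_of_eq ?_)
  rw [Real.mul_rpow (by positivity) (norm_nonneg _)]

/-- finitely many linear forms, any `m` of which determine the vector -/
lemma exists_forms [FiniteDimensional ℂ V] (D : ℕ) : ∃ (n : ℕ) (l : Fin n → V →L[ℂ] ℂ)
    (m : ℕ) (C : ℝ), D * m < n ∧ 0 ≤ C ∧ ∀ T : Finset (Fin n), m < T.card → ∀ v : V, ∀ s : ℝ,
      (∀ t ∈ T, ‖l t v‖ ≤ s) → ‖v‖ ≤ C * s := by
  set m := Module.finrank ℂ V with hm
  let b := Module.finBasis ℂ V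
  let lam : Fin (D * m + 1) → V →ₗ[ℂ] ℂ := fun t => ∑ j : Fin m, ((t : ℕ) : ℂ) ^ (j : ℕ) • b.coord j
  have hinj : ∀ T : Finset (Fin (D * m + 1)), m < T.card → ∃ C : ℝ, 0 ≤ C ∧ ∀ v : V, ∀ s : ℝ,
      (∀ t ∈ T, ‖lam t v‖ ≤ s) → ‖v‖ ≤ C * s := by
    intro T hT
    let L : V →ₗ[ℂ] (T → ℂ) := LinearMap.pi fun t => lam t
    have hker : LinearMap.ker L = ⊥ := by
      rw [LinearMap.ker_eq_bot']
      intro v hv
      let P : Polynomial ℂ := ∑ j : Fin m, Polynomial.monomial (j : ℕ) (b.coord j v)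
      have hev : ∀ x : ℂ, P.eval x = ∑ j : Fin m, x ^ (j : ℕ) * b.coord j v := by
        intro x
        simp only [P, Polynomial.eval_finsetSum, Polynomial.eval_monomial]
        exact Finset.sum_congr rfl fun j _ => mul_comm _ _
      have hP0 : P = 0 := by
        by_contra hP
        have hdeg : P.natDegree ≤ m := by
          refine Polynomial.natDegree_sum_le_of_forall_le _ _ fun j _ => ?_
          exact (Polynomial.natDegree_monomial_le _).trans j.2.le
        have hroots : (T.image fun t : Fin (D * m + 1) => ((t : ℕ) : ℂ)) ⊆ P.roots.toFinset := by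
          intro x hx
          obtain ⟨t, ht, rfl⟩ := Finset.mem_image.1 hx
          rw [Multiset.mem_toFinset, Polynomial.mem_roots hP, Polynomial.IsRoot.def, hev]
          have := congrFun hv ⟨t, ht⟩
          simpa [L, lam, LinearMap.sum_apply] using this
        have hcard := Finset.card_le_card hroots
        rw [Finset.card_image_of_injective _ (by
          intro a c hac
          have hac' : ((a : ℕ) : ℂ) = ((c : ℕ) : ℂ) := hac
          exact Fin.ext (by exact_mod_cast hac'))] at hcard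
        have h2 := (Multiset.toFinset_card_le P.roots).trans (Polynomial.card_roots' P)
        omega
      have hc : ∀ j : Fin m, b.coord j v = 0 := by
        intro j
        have := congrArg (fun Q : Polynomial ℂ => Q.coeff (j : ℕ)) hP0
        simp only [P, Polynomial.finsetSum_coeff, Polynomial.coeff_monomial,
          Polynomial.coeff_zero] at this
        rw [Finset.sum_eq_single j] at this
        · simpa using this
        · intro j' _ hj'
          rw [if_neg]
          intro h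
          exact hj' (Fin.ext h)
        · simp
      exact b.ext_elem (by intro j; simpa using hc j)
    obtain ⟨K, hK, hanti⟩ := L.exists_antilipschitzWith hker
    refine ⟨K, K.2, fun v s hs => ?_⟩
    have h1 := hanti.le_mul_dist v 0
    rw [dist_zero_right, map_zero, dist_zero_right] at h1
    refine h1.trans (mul_le_mul_of_nonneg_left ?_ K.2)
    have hne : T.Nonempty := Finset.card_pos.1 (by omega)
    obtain ⟨t₀, ht₀⟩ := hne
    rw [pi_norm_le_iff_of_nonneg ((norm_nonneg _).trans (hs t₀ ht₀))]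
    intro t
    exact hs t.1 t.2
  choose! C hC0 hC using hinj
  refine ⟨D * m + 1, fun t => LinearMap.toContinuousLinearMap (lam t), m,
    ∑ T : Finset (Fin (D * m + 1)), |C T|, by omega, Finset.sum_nonneg fun _ _ => abs_nonneg _, ?_⟩
  intro T hT v s hs
  have h1 := hC T hT v s (fun t ht => by simpa using hs t ht)
  have hne : T.Nonempty := Finset.card_pos.1 (by omega)
  obtain ⟨t₀, ht₀⟩ := hne
  have hs0 : 0 ≤ s := (norm_nonneg _).trans (hs t₀ ht₀)
  refine h1.trans (mul_le_mul_of_nonneg_right ?_ hs0)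
  exact (le_abs_self _).trans
    (Finset.single_le_sum (f := fun T => |C T|) (fun _ _ => abs_nonneg _) (Finset.mem_univ T))

theorem Sheet.holder [FiniteDimensional ℂ E] [FiniteDimensional ℂ V] (hR : 0 < R) (hδ : 0 < δ)
    (hD : 0 < D) (hg : Sheet R δ g) : ∃ C, 0 ≤ C ∧ ∀ z ∈ ball (0 : E) (δ / 2),
      ∀ z₁ ∈ ball (0 : E) (δ / 2), ∀ i, ∃ i',
        ‖g z i - g z₁ i'‖ ≤ C * ‖z - z₁‖ ^ (1 / (D : ℝ)) := by
  obtain ⟨n, l, m, C₀, hn, hC₀, hl⟩ := exists_forms (V := V) D
  choose C₁ hC₁ hh using fun t => hg.lin_holder hR hδ hD (l t)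
  refine ⟨C₀ * ∑ t, C₁ t, mul_nonneg hC₀ (Finset.sum_nonneg fun t _ => hC₁ t), ?_⟩
  intro z hz z₁ hz₁ i
  choose i' hi' using fun t => hh t z hz z₁ hz₁ i
  obtain ⟨j, -, hj⟩ := Finset.exists_lt_card_fiber_of_mul_lt_card_of_maps_to
    (s := Finset.univ) (t := Finset.univ) (f := i') (n := m) (fun _ _ => Finset.mem_univ _)
    (by simpa using hn)
  refine ⟨j, ?_⟩
  rw [mul_assoc]
  refine hl _ hj _ _ fun t ht => ?_
  have ht' := (Finset.mem_filter.1 ht).2
  have h1 := hi' t
  rw [ht'] at h1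
  refine h1.trans (mul_le_mul_of_nonneg_right ?_ (by positivity))
  exact Finset.single_le_sum (f := C₁) (fun t _ => hC₁ t) (Finset.mem_univ t)

end Pool.Agent.KRFLj

end

section

/-!
# A holomorphic function which vanishes where `H` vanishes on more sheets than usual
-/

open Metric Set Filter Topology

namespace Pool.Agent.KRFLj

namespace NormAux

/-- The linear form with the coefficients `t ^ j`. -/
noncomputable def lin {N : ℕ} (t : ℂ) (w : Fin N → ℂ) : ℂ := ∑ j : Fin N, t ^ (j : ℕ) * w j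

theorem exists_lin_ne {N D : ℕ} (w : Fin D → Fin N → ℂ) :
    ∃ t : ℂ, ∀ i, w i ≠ 0 → lin t (w i) ≠ 0 := by
  classical
  set p : Fin D → Polynomial ℂ := fun i => ∑ j : Fin N, Polynomial.monomial (j : ℕ) (w i j)
    with hp
  have hev : ∀ i t, (p i).eval t = lin t (w i) := by
    intro i t
    simp only [hp, Polynomial.eval_finsetSum, Polynomial.eval_monomial, lin]
    exact Finset.sum_congr rfl fun j _ => mul_comm _ _
  have hne : ∀ i, w i ≠ 0 → p i ≠ 0 := by
    intro i hi h0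
    apply hi
    funext j
    have h1 : (p i).coeff (j : ℕ) = w i j := by
      simp only [hp, Polynomial.finsetSum_coeff, Polynomial.coeff_monomial]
      rw [Finset.sum_eq_single j]
      · simp
      · intro k _ hk
        rw [if_neg]
        intro h
        exact hk (Fin.ext h)
      · intro h
        exact absurd (Finset.mem_univ j) h
    rw [← h1, h0]
    simp
  set P : Polynomial ℂ := ∏ i ∈ Finset.univ.filter (fun i => w i ≠ 0), p i with hP
  have hP0 : P ≠ 0 := Finset.prod_ne_zero_iff.2 fun i hi => hne i (Finset.mem_filter.1 hi).2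
  obtain ⟨t, ht⟩ : ∃ t, P.eval t ≠ 0 := by
    by_contra hc
    push Not at hc
    exact hP0 (Polynomial.funext fun t => by rw [hc t, Polynomial.eval_zero])
  refine ⟨t, fun i hi => ?_⟩
  rw [hP, Polynomial.eval_prod] at ht
  have := Finset.prod_ne_zero_iff.1 ht i (Finset.mem_filter.2 ⟨Finset.mem_univ _, hi⟩)
  rwa [hev] at this

theorem norm_lin_le {N : ℕ} (t : ℂ) (w : Fin N → ℂ) :
    ‖lin t w‖ ≤ (∑ j : Fin N, ‖t‖ ^ (j : ℕ)) * ‖w‖ := by
  rw [lin, Finset.sum_mul]
  refine (norm_sum_le _ _).trans (Finset.sum_le_sum fun j _ => ?_)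
  rw [norm_mul, norm_pow]
  exact mul_le_mul_of_nonneg_left (norm_le_pi_norm w j) (by positivity)

theorem lin_zero {N : ℕ} (t : ℂ) : lin t (0 : Fin N → ℂ) = 0 := by simp [lin]

/-- The elementary symmetric functions. -/
noncomputable def esy {D : ℕ} (k : ℕ) (x : Fin D → ℂ) : ℂ :=
  ∑ s ∈ Finset.powersetCard k Finset.univ, ∏ i ∈ s, x i

theorem esy_zero {D : ℕ} (x : Fin D → ℂ) : esy 0 x = 1 := by simp [esy]

/-- The indices of the values which are not zero. -/
noncomputable def supp {D : ℕ} (x : Fin D → ℂ) : Finset (Fin D) := by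
  classical exact Finset.univ.filter (fun i => x i ≠ 0)

theorem mem_supp {D : ℕ} {x : Fin D → ℂ} {i : Fin D} : i ∈ supp x ↔ x i ≠ 0 := by
  simp [supp]

theorem esy_card {D : ℕ} (x : Fin D → ℂ) : esy (supp x).card x = ∏ i ∈ supp x, x i := by
  classical
  rw [esy, Finset.sum_eq_single (supp x)]
  · intro s hs hne
    rw [Finset.mem_powersetCard] at hs
    by_contra h0
    apply hne
    have h1 : s ⊆ supp x := fun i hi => mem_supp.2 (Finset.prod_ne_zero_iff.1 h0 i hi)
    exact Finset.eq_of_subset_of_card_le h1 hs.2.ge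
  · intro h
    exact absurd (Finset.mem_powersetCard.2 ⟨Finset.subset_univ _, rfl⟩) h

theorem le_card_of_esy {D : ℕ} {k : ℕ} {x : Fin D → ℂ} (h : esy k x ≠ 0) : k ≤ (supp x).card := by
  classical
  obtain ⟨s, hs, h0⟩ := Finset.exists_ne_zero_of_sum_ne_zero h
  rw [Finset.mem_powersetCard] at hs
  rw [← hs.2]
  exact Finset.card_le_card fun i hi => mem_supp.2 (Finset.prod_ne_zero_iff.1 h0 i hi)

/-- The identity theorem along the lines through `0`. -/
theorem eq_zero_of_eventually {E : Type} [NormedAddCommGroup E] [NormedSpace ℂ E] {δ : ℝ}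
    {f : E → ℂ} (hf : DifferentiableOn ℂ f (ball 0 δ)) (h0 : ∀ᶠ z in 𝓝 0, f z = 0) {z : E}
    (hz : z ∈ ball (0 : E) δ) : f z = 0 := by
  set L : ℂ →L[ℂ] E := ContinuousLinearMap.smulRight (1 : ℂ →L[ℂ] ℂ) z with hL
  have hLa : ∀ s : ℂ, L s = s • z := fun s => by simp [hL]
  set U : Set ℂ := L ⁻¹' ball (0 : E) δ with hU
  have hUo : IsOpen U := isOpen_ball.preimage L.continuous
  have hUc : Convex ℝ U :=
    (convex_ball (0 : E) δ).linear_preimage (L.restrictScalars ℝ).toLinearMap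
  have hd : DifferentiableOn ℂ (fun s => f (L s)) U :=
    hf.comp L.differentiableOn (fun s hs => hs)
  have han : AnalyticOnNhd ℂ (fun s => f (L s)) U := hd.analyticOnNhd hUo
  have hδ : 0 < δ := pos_of_mem_ball hz
  have h0U : (0 : ℂ) ∈ U := by
    simp only [hU, mem_preimage, hLa, zero_smul]
    exact mem_ball_self hδ
  have h1U : (1 : ℂ) ∈ U := by
    simp only [hU, mem_preimage, hLa, one_smul]
    exact hz
  have hev : (fun s => f (L s)) =ᶠ[𝓝 0] 0 := by
    have : Tendsto L (𝓝 0) (𝓝 (0 : E)) := by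
      have := L.continuous.tendsto 0
      rwa [map_zero] at this
    exact this.eventually h0
  have := han.eqOn_zero_of_preconnected_of_eventuallyEq_zero hUc.isPreconnected h0U hev h1U
  simpa [hLa] using this

end NormAux

open NormAux

variable {E V : Type} [NormedAddCommGroup E] [NormedSpace ℂ E] [NormedAddCommGroup V]
  [NormedSpace ℂ V] {R δ : ℝ} {D : ℕ} {g : E → Fin D → V}

/-- a holomorphic function which vanishes where the map `H` vanishes on more sheets than usual -/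
theorem Sheet.exists_norm [FiniteDimensional ℂ E] [FiniteDimensional ℂ V] (hR : 0 < R)
    (hδ : 0 < δ) (hg : Sheet R δ g) {N : ℕ} {H : V → Fin N → ℂ}
    (hH : DifferentiableOn ℂ H (ball 0 (2 * R))) :
    ∃ G : E → ℂ, DifferentiableOn ℂ G (ball 0 δ) ∧ (¬ ∀ᶠ z in 𝓝 0, G z = 0) ∧
      ∃ C, 0 ≤ C ∧ ∀ z ∈ ball (0 : E) δ, ∀ i, H (g z i) ≠ 0 → ‖G z‖ ≤ C * ‖H (g z i)‖ := by
  classical
  have hdiff : ∀ t k, DifferentiableOn ℂ (fun z => esy k (fun i => lin t (H (g z i))))
      (ball 0 δ) := by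
    intro t k
    refine hg.esymm (h := fun v => lin t (H v)) ?_ k
    unfold lin
    refine DifferentiableOn.fun_sum fun j _ => ?_
    exact (differentiableOn_const _).mul (differentiableOn_pi.1 hH j)
  -- the largest `k` such that the function is not zero
  set Q : ℕ → Prop := fun k => ¬ ∀ t, ∀ᶠ z in 𝓝 (0 : E), esy k (fun i => lin t (H (g z i))) = 0
    with hQ
  have hQ0 : Q 0 := by
    intro h
    obtain ⟨z, hz⟩ := (h 0).exists
    rw [esy_zero] at hz
    exact one_ne_zero hz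
  have hQD : ∀ k, Q k → k ≤ D := by
    intro k hk
    by_contra hc
    apply hk
    intro t
    refine Eventually.of_forall fun z => ?_
    by_contra h0
    have h1 := le_card_of_esy h0
    have h2 := Finset.card_le_univ (supp fun i => lin t (H (g z i)))
    rw [Fintype.card_fin] at h2
    omega
  set r := Nat.findGreatest Q D with hr
  have hQr : Q r := Nat.findGreatest_spec (Nat.zero_le D) hQ0
  have hgt : ∀ k, r < k → ∀ t, ∀ z ∈ ball (0 : E) δ, esy k (fun i => lin t (H (g z i))) = 0 := by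
    intro k hk t z hz
    have h1 : ¬ Q k := by
      intro h
      have := Nat.le_findGreatest (hQD k h) h
      omega
    simp only [hQ, not_not] at h1
    exact eq_zero_of_eventually (hdiff t k) (h1 t) hz
  have hcard : ∀ t, ∀ z ∈ ball (0 : E) δ, (supp fun i => lin t (H (g z i))).card ≤ r := by
    intro t z hz
    by_contra hc
    push Not at hc
    have h1 := hgt _ hc t z hz
    rw [esy_card] at h1
    obtain ⟨i, hi, hi0⟩ := Finset.prod_eq_zero_iff.1 h1
    exact mem_supp.1 hi hi0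
  have hS : ∀ z ∈ ball (0 : E) δ,
      (Finset.univ.filter fun i => H (g z i) ≠ 0).card ≤ r := by
    intro z hz
    obtain ⟨t, ht⟩ := exists_lin_ne fun i => H (g z i)
    refine (Finset.card_le_card ?_).trans (hcard t z hz)
    intro i hi
    exact mem_supp.2 (ht i (Finset.mem_filter.1 hi).2)
  simp only [hQ, not_forall] at hQr
  obtain ⟨t, ht⟩ := hQr
  refine ⟨fun z => esy r (fun i => lin t (H (g z i))), hdiff t r, ht, ?_⟩
  -- bounds
  set A : ℝ := ∑ j : Fin N, ‖t‖ ^ (j : ℕ) with hA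
  have hA0 : 0 ≤ A := Finset.sum_nonneg fun j _ => by positivity
  have : ProperSpace V := FiniteDimensional.proper ℂ V
  obtain ⟨B, hB⟩ : ∃ B, ∀ v ∈ closedBall (0 : V) R, ‖H v‖ ≤ B := by
    refine (isCompact_closedBall (0 : V) R).exists_bound_of_continuousOn ?_
    exact hH.continuousOn.mono (closedBall_subset_ball (by linarith))
  set B' : ℝ := max 1 (A * B) with hB'
  have hB1 : 1 ≤ B' := le_max_left _ _
  refine ⟨A * B' ^ D, by positivity, ?_⟩
  intro z hz i hi
  by_cases hG : esy r (fun i => lin t (H (g z i))) = 0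
  · simp only [hG, norm_zero]
    positivity
  set x : Fin D → ℂ := fun i => lin t (H (g z i)) with hx
  have h1 : r ≤ (supp x).card := le_card_of_esy hG
  have h2 : (supp x).card ≤ r := hcard t z hz
  have h3 : (supp x).card = r := le_antisymm h2 h1
  have h4 : supp x = Finset.univ.filter fun i => H (g z i) ≠ 0 := by
    refine Finset.eq_of_subset_of_card_le (fun k hk => ?_) ?_
    · refine Finset.mem_filter.2 ⟨Finset.mem_univ _, fun h0 => ?_⟩
      have := mem_supp.1 hk
      simp only [hx, h0, lin_zero, ne_eq, not_true_eq_false] at this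
    · rw [h3]
      exact hS z hz
  have hi' : i ∈ supp x := by
    rw [h4]
    exact Finset.mem_filter.2 ⟨Finset.mem_univ _, hi⟩
  have h5 : esy r x = ∏ k ∈ supp x, x k := by rw [← h3]; exact esy_card x
  have hxB : ∀ k, ‖x k‖ ≤ B' := by
    intro k
    refine ((norm_lin_le t _).trans ?_).trans (le_max_right _ _)
    refine mul_le_mul_of_nonneg_left (hB _ ?_) hA0
    rw [mem_closedBall_zero_iff]
    exact hg.mem z hz k
  have h6 : ‖esy r x‖ ≤ ‖x i‖ * B' ^ D := by
    rw [h5, ← Finset.mul_prod_erase _ _ hi', norm_mul]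
    refine mul_le_mul_of_nonneg_left ?_ (norm_nonneg _)
    rw [norm_prod]
    refine (Finset.prod_le_prod (fun k _ => norm_nonneg _) fun k _ => hxB k).trans ?_
    rw [Finset.prod_const]
    refine pow_le_pow_right₀ hB1 ?_
    refine (Finset.card_erase_le).trans ?_
    have := Finset.card_le_univ (supp x)
    rwa [Fintype.card_fin] at this
  calc ‖esy r x‖ ≤ ‖x i‖ * B' ^ D := h6
    _ ≤ (A * ‖H (g z i)‖) * B' ^ D :=
        mul_le_mul_of_nonneg_right (norm_lin_le t _) (by positivity)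
    _ = A * B' ^ D * ‖H (g z i)‖ := by ring

end Pool.Agent.KRFLj

end

section

/-!
# The Łojasiewicz inequality for holomorphic maps near a point
-/

open Metric Set Filter Topology

namespace Pool.Agent.KRFLj

section

variable {E V : Type} [NormedAddCommGroup E] [NormedSpace ℂ E] [NormedAddCommGroup V]
  [NormedSpace ℂ V]

/-- the identity theorem along the lines through `0` -/
theorem eq_zero_of_lines {G : E → ℂ} {δ : ℝ} (hG : DifferentiableOn ℂ G (ball 0 δ))
    (h : ∀ v : E, ∀ᶠ t : ℂ in 𝓝 0, G (t • v) = 0) {z : E} (hz : z ∈ ball (0 : E) δ) :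
    G z = 0 := by
  set U : Set ℂ := {t | t • z ∈ ball (0 : E) δ} with hU
  have hUo : IsOpen U := isOpen_ball.preimage (by fun_prop)
  have hδ : 0 < δ := lt_of_le_of_lt dist_nonneg hz
  have hUc : IsPreconnected U := by
    have h1 : Convex ℝ U := by
      have h2 : U = (LinearMap.toSpanSingleton ℂ E z).restrictScalars ℝ ⁻¹' ball (0 : E) δ := rfl
      rw [h2]
      exact (convex_ball (0 : E) δ).linear_preimage _
    exact h1.isPreconnected
  have h0 : (0 : ℂ) ∈ U := by simp [hU, hδ]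
  have h1 : (1 : ℂ) ∈ U := by simpa [hU] using hz
  have hd : DifferentiableOn ℂ (fun t : ℂ => G (t • z)) U :=
    hG.comp (by fun_prop) fun t ht => ht
  have h2 := (hd.analyticOnNhd hUo).eqOn_zero_of_preconnected_of_eventuallyEq_zero hUc h0 (h z) h1
  simpa using h2

theorem eventually_of_lines {G : E → ℂ} {δ : ℝ} (hδ : 0 < δ)
    (hG : DifferentiableOn ℂ G (ball 0 δ)) (h : ∀ v : E, ∀ᶠ t : ℂ in 𝓝 0, G (t • v) = 0) :
    ∀ᶠ z in 𝓝 0, G z = 0 := by
  filter_upwards [ball_mem_nhds (0 : E) hδ] with z hz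
  exact eq_zero_of_lines hG h hz

/-- a splitting of `E` along `v` -/
theorem exists_split [FiniteDimensional ℂ E] {v : E} (hv : v ≠ 0) :
    ∃ (E' : Submodule ℂ E) (P : E →L[ℂ] E') (lam : E →L[ℂ] ℂ),
      Module.finrank ℂ E = Module.finrank ℂ E' + 1 ∧ ∀ z, z = (P z : E) + lam z • v := by
  obtain ⟨E', hE'⟩ := Submodule.exists_isCompl (Submodule.span ℂ {v})
  have h1 : Module.finrank ℂ E = Module.finrank ℂ E' + 1 := by
    have h2 := Submodule.finrank_add_eq_of_isCompl hE'
    rw [finrank_span_singleton hv] at h2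
    omega
  let P₀ : E →ₗ[ℂ] E' := Submodule.projectionOnto E' (Submodule.span ℂ {v}) hE'.symm
  let Q₀ : E →ₗ[ℂ] Submodule.span ℂ {v} :=
    Submodule.projectionOnto (Submodule.span ℂ {v}) E' hE'
  let L₀ : E →ₗ[ℂ] ℂ := (LinearEquiv.toSpanNonzeroSingleton ℂ E v hv).symm.toLinearMap ∘ₗ Q₀
  refine ⟨E', LinearMap.toContinuousLinearMap P₀, LinearMap.toContinuousLinearMap L₀, h1,
    fun z => ?_⟩
  have h3 : (Q₀ z : E) + (P₀ z : E) = z :=
    Submodule.projection_add_projection_eq_self hE' z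
  have h4 : (L₀ z) • v = (Q₀ z : E) := by
    have h5 := (LinearEquiv.toSpanNonzeroSingleton ℂ E v hv).apply_symm_apply (Q₀ z)
    have h6 := congrArg Subtype.val h5
    rw [LinearEquiv.toSpanNonzeroSingleton_apply] at h6
    exact h6
  change z = (P₀ z : E) + L₀ z • v
  rw [h4, add_comm, h3]

theorem exists_lipschitz [FiniteDimensional ℂ V] {R : ℝ} (hR : 0 < R) {N : ℕ}
    {H : V → Fin N → ℂ} (hH : DifferentiableOn ℂ H (ball 0 (2 * R))) :
    ∃ L, 0 ≤ L ∧ ∀ p p' : V, ‖p‖ ≤ R → ‖p'‖ ≤ R → ‖H p - H p'‖ ≤ L * ‖p - p'‖ := by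
  have : ProperSpace V := FiniteDimensional.proper ℂ V
  have hsub : closedBall (0 : V) R ⊆ ball 0 (2 * R) := closedBall_subset_ball (by linarith)
  have h1 : ContinuousOn (fderiv ℂ H) (ball 0 (2 * R)) :=
    (SCV.contDiffOn_of_differentiableOn isOpen_ball hH (n := 1)).continuousOn_fderiv_of_isOpen
      isOpen_ball le_rfl
  obtain ⟨L, hL⟩ := (isCompact_closedBall (0 : V) R).exists_bound_of_continuousOn
    (h1.mono hsub)
  refine ⟨max L 0, le_max_right _ _, fun p p' hp hp' => ?_⟩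
  have h2 := (convex_closedBall (0 : V) R).norm_image_sub_le_of_norm_fderiv_le (𝕜 := ℂ)
    (f := H) (C := max L 0) (fun x hx => hH.differentiableAt (isOpen_ball.mem_nhds (hsub hx)))
    (fun x hx => (hL x hx).trans (le_max_left _ _)) (x := p') (y := p) (by simpa using hp')
    (by simpa using hp)
  exact h2

/-- the smallest factor of a product -/
theorem exists_factor {d : ℕ} (hd : 0 < d) {x : Fin d → ℝ} (hx : ∀ j, 0 ≤ x j) {B : ℝ}
    (h : ∏ j, x j ≤ B) : ∃ j, x j ≤ B ^ (1 / (d : ℝ)) := by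
  by_contra! hcon
  have hd' : (d : ℝ) ≠ 0 := by exact_mod_cast hd.ne'
  have hB : 0 ≤ B := (Finset.prod_nonneg fun j _ => hx j).trans h
  have h1 : ∏ _j : Fin d, B ^ (1 / (d : ℝ)) < ∏ j, x j := by
    rcases hB.eq_or_lt with h0 | h0
    · rw [← h0, Real.zero_rpow (by positivity)] at hcon ⊢
      rw [Finset.prod_const, Finset.card_univ, Fintype.card_fin, zero_pow hd.ne']
      exact Finset.prod_pos fun j _ => hcon j
    · refine Finset.prod_lt_prod_of_nonempty (fun j _ => by positivity) (fun j _ => hcon j) ?_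
      exact ⟨⟨0, hd⟩, Finset.mem_univ _⟩
  rw [Finset.prod_const, Finset.card_univ, Fintype.card_fin, ← Real.rpow_natCast, ← Real.rpow_mul hB,
    one_div_mul_cancel hd', Real.rpow_one] at h1
  linarith

theorem exists_add_rpow {C₁ C₂ a b : ℝ} (hC₁ : 0 ≤ C₁) (hC₂ : 0 ≤ C₂) {x : ℝ}
    (hx : 0 < x) (hx1 : x ≤ 1) : C₁ * x ^ a + C₂ * x ^ b ≤ (C₁ + C₂) * x ^ min a b := by
  have h1 : x ^ a ≤ x ^ min a b := Real.rpow_le_rpow_of_exponent_ge hx hx1 (min_le_left _ _)
  have h2 : x ^ b ≤ x ^ min a b := Real.rpow_le_rpow_of_exponent_ge hx hx1 (min_le_right _ _)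
  linarith [mul_le_mul_of_nonneg_left h1 hC₁, mul_le_mul_of_nonneg_left h2 hC₂]

/-- `C x ^ b` is small if `x` is small -/
theorem exists_small {C b ε : ℝ} (hb : 0 < b) (hε : 0 < ε) :
    ∃ c > 0, ∀ x, 0 ≤ x → x < c → C * x ^ b < ε := by
  have h1 : Tendsto (fun x : ℝ => C * x ^ b) (𝓝 0) (𝓝 (C * 0 ^ b)) :=
    (continuous_const.mul (Real.continuous_rpow_const hb.le)).tendsto 0
  rw [Real.zero_rpow hb.ne', mul_zero] at h1
  obtain ⟨c, hc, h2⟩ := Metric.eventually_nhds_iff_ball.1 (h1.eventually (gt_mem_nhds hε))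
  refine ⟨c, hc, fun x hx hxc => h2 x ?_⟩
  rw [mem_ball, dist_zero_right, Real.norm_of_nonneg hx]
  exact hxc

theorem claim [FiniteDimensional ℂ V] {R : ℝ} (hR : 0 < R) {N : ℕ} {H : V → Fin N → ℂ}
    (hH : DifferentiableOn ℂ H (ball 0 (2 * R))) (k : ℕ) :
    ∀ (E : Type) [NormedAddCommGroup E] [NormedSpace ℂ E] [FiniteDimensional ℂ E],
      Module.finrank ℂ E = k → ∀ (δ : ℝ) (D : ℕ) (g : E → Fin D → V), 0 < δ → Sheet R δ g →
      ∃ C a c δ' : ℝ, 0 < C ∧ 0 < a ∧ 0 < c ∧ 0 < δ' ∧ δ' ≤ δ ∧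
        ∀ z ∈ ball (0 : E) δ', ∀ i, ‖H (g z i)‖ < c → ∃ z' ∈ ball (0 : E) δ, ∃ i',
          H (g z' i') = 0 ∧ ‖g z i - g z' i'‖ ≤ C * ‖H (g z i)‖ ^ a := by
  obtain ⟨L, hL, hLip⟩ := exists_lipschitz hR hH
  induction k with
  | zero =>
    intro E _ _ _ hk δ D g hδ hg
    obtain ⟨G, hG, hne, C₀, hC₀, hGle⟩ := hg.exists_norm hR hδ hH
    have hsub : Subsingleton E := Module.finrank_zero_iff.1 hk
    have hG0 : G 0 ≠ 0 := by
      intro h
      refine hne (Eventually.of_forall fun z => ?_)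
      rw [Subsingleton.elim z 0, h]
    refine ⟨1, 1, ‖G 0‖ / (C₀ + 1), δ, one_pos, one_pos, by positivity, hδ, le_rfl,
      fun z hz i hi => ⟨z, hz, i, ?_, by simp⟩⟩
    by_contra h
    have h1 := hGle z hz i h
    rw [Subsingleton.elim z 0] at h1 h hi
    rw [lt_div_iff₀ (by positivity)] at hi
    have h2 : 0 < ‖H (g 0 i)‖ := norm_pos_iff.2 h
    linarith
  | succ k ih =>
    intro E _ _ _ hk δ D g hδ hg
    obtain ⟨G, hG, hne, C₀, hC₀, hGle⟩ := hg.exists_norm hR hδ hH
    by_cases hG0 : G 0 = 0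
    swap
    · -- no zeros
      have hcont : ContinuousAt G 0 :=
        (hG.differentiableAt (ball_mem_nhds 0 hδ)).continuousAt
      have hev : ∀ᶠ z in 𝓝 0, ‖G 0‖ / 2 < ‖G z‖ :=
        hcont.norm.eventually (lt_mem_nhds (half_lt_self (norm_pos_iff.2 hG0)))
      obtain ⟨δ₁, hδ₁, h1⟩ := Metric.eventually_nhds_iff_ball.1 hev
      refine ⟨1, 1, ‖G 0‖ / 2 / (C₀ + 1), min δ δ₁, one_pos, one_pos, by positivity,
        lt_min hδ hδ₁, min_le_left _ _, fun z hz i hi => ?_⟩
      have hz1 : z ∈ ball (0 : E) δ := ball_subset_ball (min_le_left _ _) hz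
      have hz2 := h1 z (ball_subset_ball (min_le_right _ _) hz)
      refine ⟨z, hz1, i, ?_, by simp⟩
      by_contra h
      have h3 := hGle z hz1 i h
      rw [lt_div_iff₀ (by positivity)] at hi
      have h2 : 0 < ‖H (g z i)‖ := norm_pos_iff.2 h
      linarith
    · obtain ⟨v, hv⟩ : ∃ v : E, ¬ ∀ᶠ t : ℂ in 𝓝 0, G (t • v) = 0 := by
        by_contra! h
        exact hne (eventually_of_lines hδ hG h)
      have hv0 : v ≠ 0 := by
        rintro rfl
        exact hv (Eventually.of_forall fun t => by rw [smul_zero, hG0])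
      obtain ⟨E', P, lam, hfin, hsplit⟩ := exists_split hv0
      obtain ⟨ρ, δ₁, c₁, d, β, hρ, hδ₁, hc₁, hd, hb, hβ, hlow, htr⟩ := exists_roots hδ hG hG0 hv
      rcases Nat.eq_zero_or_pos D with hD | hD
      · subst hD
        exact ⟨1, 1, 1, δ, one_pos, one_pos, one_pos, hδ, le_rfl, fun z hz i => i.elim0⟩
      -- the new map
      set g' : E' → Fin (d * D) → V := fun z i =>
        g ((z : E) + β z (finProdFinEquiv.symm i).1 • v) (finProdFinEquiv.symm i).2 with hg'
      have hmemE : ∀ z ∈ ball (0 : E') δ₁, (z : E) ∈ ball (0 : E) δ₁ := by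
        intro z hz
        simpa using hz
      have hmem : ∀ z ∈ ball (0 : E') δ₁, ∀ j, (z : E) + β z j • v ∈ ball (0 : E) δ :=
        fun z hz j => hb _ (hmemE z hz) _ ((hβ _ (hmemE z hz) j).1.le)
      have hsheet : Sheet R δ₁ g' := by
        refine ⟨fun z hz i => hg.mem _ (hmem z hz _) _, fun h hh => ?_⟩
        have h1 : (fun z : E' => ∑ i, h (g' z i)) = fun z : E' =>
            (fun w : E => ∑ j, (fun w => ∑ i, h (g w i)) (w + β w j • v)) (z : E) := by
          funext z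
          rw [← (finProdFinEquiv (m := d) (n := D)).sum_comp, Fintype.sum_prod_type]
          simp only [hg', Equiv.symm_apply_apply]
        rw [h1]
        exact (htr _ (hg.trace h hh)).comp (E'.subtypeL.differentiableOn) hmemE
      obtain ⟨C, a, c, δ₂, hC, ha, hc, hδ₂, hδ₂₁, hind⟩ :=
        ih E' (by omega) δ₁ (d * D) g' hδ₁ hsheet
      obtain ⟨C₂, hC₂, hhol⟩ := hg.holder hR hδ hD
      -- the constants
      have hd' : (0 : ℝ) < d := by exact_mod_cast hd
      have hD' : (0 : ℝ) < D := by exact_mod_cast hD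
      set b₁ : ℝ := 1 / (d : ℝ) with hb₁
      set b₂ : ℝ := 1 / (D : ℝ) with hb₂
      have hb₁0 : 0 < b₁ := by positivity
      have hb₂0 : 0 < b₂ := by positivity
      set A₁ : ℝ := ‖v‖ * (C₀ / c₁) ^ b₁ with hA₁
      have hA₁0 : 0 ≤ A₁ := by positivity
      set A₂ : ℝ := C₂ * A₁ ^ b₂ with hA₂
      have hA₂0 : 0 ≤ A₂ := by positivity
      set b : ℝ := b₁ * b₂ with hb'
      have hb0 : 0 < b := by positivity
      set A₃ : ℝ := 1 + L * A₂ with hA₃
      have hA₃0 : 0 < A₃ := by positivity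
      obtain ⟨e₁, he₁, hs₁⟩ := exists_small (C := A₁) hb₁0 (show 0 < δ / 4 by positivity)
      obtain ⟨e₂, he₂, hs₂⟩ := exists_small (C := A₃) (lt_min one_pos hb0) hc
      have hPc : ∀ᶠ z : E in 𝓝 0, ‖P z‖ < min δ₁ δ₂ ∧ ‖lam z‖ < ρ := by
        have h1 : ContinuousAt (fun z : E => ‖P z‖) 0 := by fun_prop
        have h2 : ContinuousAt (fun z : E => ‖lam z‖) 0 := by fun_prop
        have h3 := h1.eventually (gt_mem_nhds (show ‖P 0‖ < min δ₁ δ₂ by
          rw [map_zero, norm_zero]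
          exact lt_min hδ₁ hδ₂))
        have h4 := h2.eventually (gt_mem_nhds (show ‖lam 0‖ < ρ by
          rw [map_zero, norm_zero]
          exact hρ))
        exact h3.and h4
      obtain ⟨δ₃, hδ₃, hP⟩ := Metric.eventually_nhds_iff_ball.1 hPc
      refine ⟨A₂ + C * A₃ ^ a + 1, min b (min 1 b * a), min (min e₁ e₂) 1,
        min (δ / 4) δ₃, by positivity, lt_min hb0 (mul_pos (lt_min one_pos hb0) ha),
        by positivity, by positivity, (min_le_left _ _).trans (by linarith),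
        fun z hz i hi => ?_⟩
      have hzδ : z ∈ ball (0 : E) (δ / 4) := ball_subset_ball (min_le_left _ _) hz
      have hzδ' : z ∈ ball (0 : E) δ := ball_subset_ball (by linarith) hzδ
      obtain ⟨hPz, hlz⟩ := hP z (ball_subset_ball (min_le_right _ _) hz)
      by_cases h0 : H (g z i) = 0
      · exact ⟨z, hzδ', i, h0, by rw [sub_self, norm_zero]; positivity⟩
      set x : ℝ := ‖H (g z i)‖ with hx
      have hx0 : 0 < x := norm_pos_iff.2 h0
      have hx1 : x ≤ 1 := (hi.trans_le (min_le_right _ _)).le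
      have hxe₁ : x < e₁ := hi.trans_le ((min_le_left _ _).trans (min_le_left _ _))
      have hxe₂ : x < e₂ := hi.trans_le ((min_le_left _ _).trans (min_le_right _ _))
      -- the root
      have hPzb : (P z) ∈ ball (0 : E') δ₁ := by
        simpa using hPz.trans_le (min_le_left _ _)
      have hPzb₂ : (P z) ∈ ball (0 : E') δ₂ := by
        simpa using hPz.trans_le (min_le_right _ _)
      have h1 : c₁ * ∏ j, ‖lam z - β (P z) j‖ ≤ C₀ * x := by
        refine (hlow _ (hmemE _ hPzb) (lam z) hlz.le).trans ?_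
        rw [← hsplit z]
        exact hGle z hzδ' i h0
      have h2 : ∏ j, ‖lam z - β (P z) j‖ ≤ C₀ / c₁ * x := by
        rw [div_mul_eq_mul_div, le_div_iff₀ hc₁]
        linarith
      obtain ⟨j, hj⟩ := exists_factor hd (fun j => norm_nonneg _) h2
      rw [Real.mul_rpow (by positivity) hx0.le] at hj
      set z₁ : E := (P z : E) + β (P z) j • v with hz₁
      have h3 : ‖z - z₁‖ ≤ A₁ * x ^ b₁ := by
        have h4 : z - z₁ = (lam z - β (P z) j) • v := by
          conv_lhs => rw [hsplit z]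
          rw [hz₁, sub_smul]
          abel
        rw [h4, norm_smul]
        calc ‖lam z - β (P z) j‖ * ‖v‖ ≤ (C₀ / c₁) ^ b₁ * x ^ b₁ * ‖v‖ :=
              mul_le_mul_of_nonneg_right hj (norm_nonneg _)
          _ = A₁ * x ^ b₁ := by rw [hA₁]; ring
      have h5 : ‖z - z₁‖ < δ / 4 := h3.trans_lt (hs₁ x hx0.le hxe₁)
      have hz₁b : z₁ ∈ ball (0 : E) (δ / 2) := by
        rw [mem_ball, dist_zero_right] at hzδ ⊢
        have h6 : ‖z₁‖ ≤ ‖z‖ + ‖z - z₁‖ := by
          have := norm_sub_le z (z - z₁)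
          rwa [sub_sub_cancel] at this
        linarith
      obtain ⟨i', hi'⟩ := hhol z (ball_subset_ball (by linarith) hzδ) z₁ hz₁b i
      have h7 : ‖g z i - g z₁ i'‖ ≤ A₂ * x ^ b := by
        refine hi'.trans ?_
        have h8 : ‖z - z₁‖ ^ b₂ ≤ (A₁ * x ^ b₁) ^ b₂ :=
          Real.rpow_le_rpow (norm_nonneg _) h3 hb₂0.le
        rw [Real.mul_rpow hA₁0 (by positivity), ← Real.rpow_mul hx0.le] at h8
        calc C₂ * ‖z - z₁‖ ^ b₂ ≤ C₂ * (A₁ ^ b₂ * x ^ (b₁ * b₂)) :=
              mul_le_mul_of_nonneg_left h8 hC₂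
          _ = A₂ * x ^ b := by rw [hA₂, hb']; ring
      have hz₁δ : z₁ ∈ ball (0 : E) δ := ball_subset_ball (by linarith) hz₁b
      have h9 : ‖H (g z₁ i')‖ ≤ A₃ * x ^ min 1 b := by
        have h10 := hLip (g z₁ i') (g z i) (hg.mem _ hz₁δ _) (hg.mem _ hzδ' _)
        have h11 : ‖H (g z₁ i')‖ ≤ ‖H (g z i)‖ + ‖H (g z₁ i') - H (g z i)‖ := by
          have := norm_add_le (H (g z i)) (H (g z₁ i') - H (g z i))
          rwa [add_sub_cancel] at this
        rw [norm_sub_rev (g z₁ i')] at h10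
        have h12 : L * ‖g z i - g z₁ i'‖ ≤ L * (A₂ * x ^ b) := mul_le_mul_of_nonneg_left h7 hL
        have h13 := exists_add_rpow (a := 1) (b := b) zero_le_one
          (mul_nonneg hL hA₂0) hx0 hx1
        rw [Real.rpow_one] at h13
        calc ‖H (g z₁ i')‖ ≤ 1 * x + L * A₂ * x ^ b := by linarith
          _ ≤ A₃ * x ^ min 1 b := h13
      have h14 : ‖H (g z₁ i')‖ < c := h9.trans_lt (hs₂ x hx0.le hxe₂)
      have h15 : g' (P z) (finProdFinEquiv (j, i')) = g z₁ i' := by
        simp only [hg', hz₁, Equiv.symm_apply_apply]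
      obtain ⟨w, hw, l, hl0, hl⟩ := hind (P z) hPzb₂ (finProdFinEquiv (j, i')) (by rwa [h15])
      rw [h15] at hl
      refine ⟨(w : E) + β w (finProdFinEquiv.symm l).1 • v, hmem w hw _,
        (finProdFinEquiv.symm l).2, hl0, ?_⟩
      change ‖g z i - g' w l‖ ≤ _
      have h16 : ‖H (g z₁ i')‖ ^ a ≤ A₃ ^ a * x ^ (min 1 b * a) := by
        have h17 := Real.rpow_le_rpow (norm_nonneg _) h9 ha.le
        rwa [Real.mul_rpow hA₃0.le (by positivity), ← Real.rpow_mul hx0.le] at h17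
      have h18 : ‖g z i - g' w l‖ ≤ ‖g z i - g z₁ i'‖ + ‖g z₁ i' - g' w l‖ :=
        norm_sub_le_norm_sub_add_norm_sub _ _ _
      have h19 : C * ‖H (g z₁ i')‖ ^ a ≤ C * A₃ ^ a * x ^ (min 1 b * a) := by
        rw [mul_assoc]
        exact mul_le_mul_of_nonneg_left h16 hC.le
      have h20 := exists_add_rpow (a := b) (b := min 1 b * a) hA₂0
        (show 0 ≤ C * A₃ ^ a by positivity) hx0 hx1
      have h21 : 0 ≤ x ^ min b (min 1 b * a) := Real.rpow_nonneg hx0.le _
      have h22 : (A₂ + C * A₃ ^ a + 1) * x ^ min b (min 1 b * a) =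
          (A₂ + C * A₃ ^ a) * x ^ min b (min 1 b * a) + x ^ min b (min 1 b * a) := by ring
      rw [h22]
      linarith

/-- The Łojasiewicz inequality near a point. -/
theorem local_loj [FiniteDimensional ℂ V] {R : ℝ} (hR : 0 < R) {N : ℕ} {H : V → Fin N → ℂ}
    (hH : DifferentiableOn ℂ H (ball 0 (2 * R))) (h0 : H 0 = 0) :
    ∃ C a δ : ℝ, 0 < C ∧ 0 < a ∧ 0 < δ ∧ ∀ p, ‖p‖ < δ → ∃ p', ‖p'‖ ≤ R ∧ H p' = 0 ∧
      ‖p - p'‖ ≤ C * ‖H p‖ ^ a := by
  have hs : Sheet R R (fun (p : V) (_ : Fin 1) => p) := by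
    refine ⟨fun z hz _ => by simpa using (mem_ball_zero_iff.1 hz).le, fun h hh => ?_⟩
    simp only [Finset.univ_unique, Finset.sum_const, Finset.card_singleton, one_smul]
    exact hh.mono (ball_subset_ball (by linarith))
  obtain ⟨C, a, c, δ, hC, ha, hc, hδ, hδR, hcl⟩ := claim hR hH (Module.finrank ℂ V) V rfl R 1 _ hR hs
  refine ⟨max C (δ / c ^ a), a, δ, lt_max_of_lt_left hC, ha, hδ, fun p hp => ?_⟩
  by_cases hpc : ‖H p‖ < c
  · obtain ⟨p', hp', -, h1, h2⟩ := hcl p (by simpa using hp) 0 hpc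
    refine ⟨p', (mem_ball_zero_iff.1 hp').le, h1, h2.trans ?_⟩
    exact mul_le_mul_of_nonneg_right (le_max_left _ _) (by positivity)
  · refine ⟨0, by simpa using hR.le, h0, ?_⟩
    rw [sub_zero]
    have h1 : c ^ a ≤ ‖H p‖ ^ a := Real.rpow_le_rpow hc.le (not_lt.1 hpc) ha.le
    have h2 : 0 < c ^ a := by positivity
    calc ‖p‖ ≤ δ := hp.le
      _ = δ / c ^ a * c ^ a := by field_simp
      _ ≤ max C (δ / c ^ a) * ‖H p‖ ^ a :=
          mul_le_mul (le_max_right _ _) h1 h2.le (le_max_of_le_left hC.le)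

end

open Pool.Agent.ToricKRF Pool.Agent.ToricKRF.G Pool.Agent.KRFS Pool.Agent.KRFF in
/-- The Łojasiewicz inequality for the fibre product of a holomorphic map of a compact manifold. -/
theorem isLoj {M Z : Type} [MetricSpace M] [CompactSpace M] [MetricSpace Z] {n N : ℕ}
    {κ P : Type} {e : κ → OpenPartialHomeomorph M (Cn n)} {U : P → Set Z} {q : P → Z → Cn N}
    {f : M → Z} (he : IsAtlas e) (hl : ∀ c, KRFZ.IsLip (e c) (e c).source)
    (hU : ∀ j, IsOpen (U j)) (hc : ∀ z, ∃ j, z ∈ U j) (hq : ∀ j, KRFZ.IsLip (q j) (U j))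
    (hf : Continuous f) (hh : ∀ c j, HolOn (KRFZ.fmap e q f c j) (KRFZ.fdom e U f c j)) :
    KRFZ.IsLoj f :=
  isLoj_of (fun _ _ hR hH h0 => local_loj hR hH h0) he hl hU hc hq hf hh

end Pool.Agent.KRFLj

end
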